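import Mathlib

/-! A Brun-Titchmarsh inequality by the Selberg sieve in diagonal form. -/

set_option autoImplicit false

namespace Pool.Agent.MP_d0fd9b_nt

open Finset

lemma sum_periodic_le {Φ : ℕ → ℝ} {L : ℕ} (hL : 0 < L) (hp : Function.Periodic Φ L)
    (h1 : ∀ k, Φ k ≤ 1) {μ : ℝ} (hμ : 0 ≤ μ) (h : ∑ k ∈ range L, Φ k ≤ L * μ) (K : ℕ) :
    ∑ k ∈ range K, Φ k ≤ K * μ + L := by
  induction K using Nat.strong_induction_on with
  | _ K ih =>
    rcases Nat.lt_or_ge K L with hK | hK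
    · have h2 : ∑ k ∈ range K, Φ k ≤ K := by simpa using sum_le_sum (s := range K) fun k _ => h1 k
      have h3 : (K : ℝ) ≤ L := by exact_mod_cast hK.le
      have : 0 ≤ (K : ℝ) * μ := by positivity
      linarith
    · obtain ⟨K', rfl⟩ := Nat.exists_eq_add_of_le hK
      have h2 := ih K' (by omega)
      rw [sum_range_add]
      simp_rw [add_comm L, hp _]
      push_cast
      linarith

lemma sum_mul_coprime {f g : ℕ → ℝ} {r s : ℕ} (hr : r ≠ 0) (hs : s ≠ 0) (hc : r.Coprime s)
    (hf : Function.Periodic f r) (hg : Function.Periodic g s) :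
    ∑ k ∈ range (r * s), f k * g k = (∑ k ∈ range r, f k) * ∑ k ∈ range s, g k := by
  rw [sum_mul_sum, ← sum_product']
  refine sum_nbij (fun k => (k % r, k % s)) (fun k _ => ?_) (fun k hk k' hk' h => ?_)
    (fun x hx => ?_) fun k _ => by rw [hf.map_mod_nat, hg.map_mod_nat]
  · simp [Nat.mod_lt _ (Nat.pos_of_ne_zero hr), Nat.mod_lt _ (Nat.pos_of_ne_zero hs)]
  · simp only [Prod.mk.injEq] at h
    simp only [coe_range, Set.mem_Iio] at hk hk'
    exact Nat.ModEq.eq_of_lt_of_lt ((Nat.modEq_and_modEq_iff_modEq_mul hc).1 h) hk hk'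
  · simp only [coe_product, coe_range, Set.mem_prod, Set.mem_Iio] at hx
    refine ⟨Nat.chineseRemainder hc x.1 x.2, by
      simpa using Nat.chineseRemainder_lt_mul hc _ _ hr hs, ?_⟩
    have := (Nat.chineseRemainder hc x.1 x.2).2
    exact Prod.ext (Eq.trans this.1 (Nat.mod_eq_of_lt hx.1))
      (Eq.trans this.2 (Nat.mod_eq_of_lt hx.2))

lemma periodic_prod {φ : ℕ → ℕ → ℝ} (hφ : ∀ l, Function.Periodic (φ l) l) (U : Finset ℕ) :
    Function.Periodic (fun k => ∏ l ∈ U, φ l k) (∏ l ∈ U, l) := fun k =>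
  prod_congr rfl fun l hl => by
    obtain ⟨c, hc⟩ := dvd_prod_of_mem (fun l => l) hl
    rw [hc, mul_comm]
    exact (hφ l).nat_mul c k

lemma sum_prod_primes {φ : ℕ → ℕ → ℝ} (hφ : ∀ l, Function.Periodic (φ l) l) (U : Finset ℕ)
    (hU : ∀ l ∈ U, l.Prime) :
    ∑ k ∈ range (∏ l ∈ U, l), ∏ l ∈ U, φ l k = ∏ l ∈ U, ∑ k ∈ range l, φ l k := by
  induction U using Finset.induction_on with
  | empty => simp
  | insert l U hl ih =>
    have h1 : ∀ l' ∈ U, l'.Prime := fun l' h => hU l' (mem_insert_of_mem h)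
    have h2 := hU l (mem_insert_self _ _)
    simp_rw [prod_insert hl]
    rw [sum_mul_coprime h2.ne_zero (prod_ne_zero_iff.2 fun l' h => (h1 l' h).ne_zero)
      (Nat.Coprime.prod_right fun l' h => (Nat.coprime_primes h2 (h1 l' h)).2 (by
        rintro rfl; exact hl h)) (hφ l) (periodic_prod hφ U), ih h1]

lemma sum_ite_dvd {l q : ℕ} (hl : l.Prime) (hq : ¬ l ∣ q) (a : ℕ) (x y : ℝ) :
    ∑ k ∈ range l, (if l ∣ a + q * k then x else y) = x + (l - 1) * y := by
  have hc : ((range l).filter fun k => l ∣ a + q * k).card = 1 := by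
    have := Fact.mk hl
    have q0 : (q : ZMod l) ≠ 0 := fun h => hq ((ZMod.natCast_eq_zero_iff _ _).1 h)
    rw [card_eq_one]
    refine ⟨(-(a : ZMod l) / q).val, ?_⟩
    ext k
    rw [mem_filter, mem_range, mem_singleton, ← ZMod.natCast_eq_zero_iff]
    push_cast
    constructor
    · rintro ⟨h1, h2⟩
      rw [← ZMod.val_natCast_of_lt h1]
      congr 1
      field_simp
      linear_combination h2
    · rintro rfl
      refine ⟨ZMod.val_lt _, ?_⟩
      rw [ZMod.natCast_zmod_val]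
      field_simp
      ring
  have h2 := card_filter_add_card_filter_not (s := range l) fun k => l ∣ a + q * k
  rw [hc, card_range] at h2
  have h3 : (((range l).filter fun k => ¬ l ∣ a + q * k).card : ℝ) = l - 1 := by
    rw [eq_sub_iff_add_eq, add_comm]; exact_mod_cast h2
  rw [sum_ite, sum_const, sum_const, hc, nsmul_eq_mul, nsmul_eq_mul, h3]
  simp

/-- sets of primes from `P` with product at most `z` -/
def sets (P : Finset ℕ) (z : ℕ) : Finset (Finset ℕ) := P.powerset.filter fun S => ∏ l ∈ S, l ≤ z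

/-- the sum of `1/d` over squarefree `d ≤ z` composed of primes from `P` -/
noncomputable def GG (P : Finset ℕ) (z : ℕ) : ℝ := ∑ S ∈ sets P z, ∏ l ∈ S, (1 / l : ℝ)

lemma one_le_GG (P : Finset ℕ) {z : ℕ} (hz : 1 ≤ z) : 1 ≤ GG P z := by
  have := single_le_sum (s := sets P z) (f := fun S : Finset ℕ => ∏ l ∈ S, (1 / l : ℝ))
    (fun S _ => by positivity) (a := ∅) (by simp [sets, hz])
  simpa [GG] using this

lemma selberg {q z : ℕ} (hz : 1 ≤ z) {P : Finset ℕ} (hP : ∀ l ∈ P, l.Prime ∧ ¬ l ∣ q) (a K : ℕ) :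
    (((range K).filter fun k => ∀ l ∈ P, ¬ l ∣ a + q * k).card : ℝ) ≤ K / GG P z + z ^ 4 := by
  let φ : ℕ → ℕ → ℝ := fun l k => if l ∣ a + q * k then 1 / l - 1 else 1 / l
  have hφ : ∀ l, Function.Periodic (φ l) l := fun l k => by
    simp only [φ, mul_add, ← add_assoc, Nat.dvd_add_left (Dvd.intro_left q rfl)]
  have hφ1 : ∀ l ∈ P, ∀ k, |φ l k| ≤ 1 := fun l hl k => by
    have h1 : (1 : ℝ) ≤ l := by exact_mod_cast (hP l hl).1.one_le
    have h2 : (1 : ℝ) / l ≤ 1 := (div_le_one (by linarith)).2 h1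
    have h3 : (0 : ℝ) ≤ 1 / l := by positivity
    simp only [φ]
    split_ifs <;> rw [abs_le] <;> constructor <;> linarith
  have hmem : ∀ S ∈ sets P z, S ⊆ P ∧ ∏ l ∈ S, l ≤ z := fun S hS => by
    simpa [sets] using hS
  have hcard : ((sets P z).card : ℝ) ≤ z := by
    have := card_le_card_of_injOn (s := sets P z) (t := Icc 1 z) (fun S => ∏ l ∈ S, l)
      (fun S hS => by
        simp only [coe_Icc, Set.mem_Icc]
        exact ⟨prod_pos fun l hl => (hP l ((hmem S hS).1 hl)).1.pos, (hmem S hS).2⟩)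
      fun S hS T hT h => by
        rw [← Nat.primeFactors_prod fun l hl => (hP l ((hmem S hS).1 hl)).1,
          ← Nat.primeFactors_prod fun l hl => (hP l ((hmem T hT).1 hl)).1]
        exact congrArg _ h
    exact_mod_cast this.trans (by simp)
  have hpair : ∀ S ∈ sets P z, ∀ T ∈ sets P z,
      ∑ k ∈ range K, (∏ l ∈ S, φ l k) * ∏ l ∈ T, φ l k ≤
        (if S = T then K * ∏ l ∈ S, (1 / l : ℝ) else 0) + z ^ 2 := fun S hS T hT => by
    obtain ⟨s1, s2⟩ := hmem S hS
    obtain ⟨t1, t2⟩ := hmem T hT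
    have u1 : S ∪ T ⊆ P := union_subset s1 t1
    let ψ : ℕ → ℕ → ℝ := fun l k => (if l ∈ S then φ l k else 1) * if l ∈ T then φ l k else 1
    have hψ : ∀ l, Function.Periodic (ψ l) l := fun l k => by simp only [ψ, hφ l k]
    have e : ∀ k, (∏ l ∈ S, φ l k) * ∏ l ∈ T, φ l k = ∏ l ∈ S ∪ T, ψ l k := fun k => by
      simp only [ψ, prod_mul_distrib, prod_ite_mem, union_inter_cancel_left,
        union_inter_cancel_right]
    have hL : ((∏ l ∈ S ∪ T, l : ℕ) : ℝ) ≤ z ^ 2 := by
      have h1 : ∏ l ∈ S ∪ T, l ≤ (∏ l ∈ S, l) * ∏ l ∈ T, l := by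
        rw [← prod_union_inter]
        exact Nat.le_mul_of_pos_right _ (prod_pos fun l hl =>
          (hP l (s1 (mem_inter.1 hl).1)).1.pos)
      exact_mod_cast h1.trans (by rw [sq]; exact Nat.mul_le_mul s2 t2)
    have := sum_periodic_le (L := ∏ l ∈ S ∪ T, l) (prod_pos fun l hl => (hP l (u1 hl)).1.pos)
      (periodic_prod hψ (S ∪ T)) (fun k => by
        rw [← e]
        refine (le_abs_self _).trans ?_
        rw [abs_mul, abs_prod, abs_prod]
        exact mul_le_one₀ (prod_le_one (fun _ _ => abs_nonneg _) fun l hl => hφ1 l (s1 hl) k)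
          (by positivity) (prod_le_one (fun _ _ => abs_nonneg _) fun l hl => hφ1 l (t1 hl) k))
      (μ := if S = T then ∏ l ∈ S, (1 / l : ℝ) else 0) (by split_ifs <;> positivity) (by
        rw [sum_prod_primes hψ _ fun l hl => (hP l (u1 hl)).1]
        split_ifs with h
        · subst h
          rw [union_self, Nat.cast_prod, ← prod_mul_distrib]
          refine prod_le_prod (fun l hl => sum_nonneg fun k _ => by
            simp only [ψ, if_pos hl]; exact mul_self_nonneg _) fun l hl => ?_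
          have h1 : (0 : ℝ) < l := by exact_mod_cast (hP l (s1 hl)).1.pos
          simp only [ψ, φ, if_pos hl, ite_mul_ite]
          rw [sum_ite_dvd (hP l (s1 hl)).1 (hP l (s1 hl)).2]
          have : (1 / l - 1) * (1 / l - 1) + (l - 1) * (1 / l * (1 / l)) = l * (1 / l) - (1 / l : ℝ) := by
            field_simp; ring
          rw [this]
          exact sub_le_self _ (by positivity)
        · rw [mul_zero]
          obtain ⟨l, hl⟩ : ∃ l, ¬ (l ∈ S ↔ l ∈ T) := by
            by_contra hc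
            exact h (Finset.ext fun l => not_not.1 fun h' => hc ⟨l, h'⟩)
          have h1 : l ∈ S ∪ T := by rw [mem_union]; tauto
          have h2 : (0 : ℝ) < l := by exact_mod_cast (hP l (u1 h1)).1.pos
          have h3 : ∀ k, ψ l k = φ l k := fun k => by
            by_cases h4 : l ∈ S <;> by_cases h5 : l ∈ T <;> simp_all [ψ]
          refine (prod_eq_zero h1 ?_).le
          simp only [h3, φ]
          rw [sum_ite_dvd (hP l (u1 h1)).1 (hP l (u1 h1)).2]
          field_simp; ring) K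
    simp_rw [e]
    refine this.trans (add_le_add (le_of_eq ?_) hL)
    split_ifs <;> simp
  have hG := one_le_GG P hz
  have main : (((range K).filter fun k => ∀ l ∈ P, ¬ l ∣ a + q * k).card : ℝ) * GG P z ^ 2 ≤
      K * GG P z + z ^ 4 := by
    calc _ = ∑ k ∈ (range K).filter fun k => ∀ l ∈ P, ¬ l ∣ a + q * k,
          (∑ S ∈ sets P z, ∏ l ∈ S, φ l k) ^ 2 := by
          rw [← nsmul_eq_mul, ← sum_const]
          refine sum_congr rfl fun k hk => ?_
          congr 1
          refine sum_congr rfl fun S hS => prod_congr rfl fun l hl => ?_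
          simp only [φ, if_neg ((mem_filter.1 hk).2 l ((hmem S hS).1 hl))]
      _ ≤ ∑ k ∈ range K, (∑ S ∈ sets P z, ∏ l ∈ S, φ l k) ^ 2 :=
          sum_le_sum_of_subset_of_nonneg (filter_subset _ _) fun _ _ _ => sq_nonneg _
      _ = ∑ S ∈ sets P z, ∑ T ∈ sets P z,
          ∑ k ∈ range K, (∏ l ∈ S, φ l k) * ∏ l ∈ T, φ l k := by
          simp_rw [sq, sum_mul_sum]
          rw [sum_comm]
          exact sum_congr rfl fun S _ => sum_comm
      _ ≤ ∑ S ∈ sets P z, ∑ T ∈ sets P z,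
          ((if S = T then K * ∏ l ∈ S, (1 / l : ℝ) else 0) + z ^ 2) :=
          sum_le_sum fun S hS => sum_le_sum fun T hT => hpair S hS T hT
      _ = K * GG P z + (sets P z).card * ((sets P z).card * z ^ 2) := by
          simp only [sum_add_distrib, sum_const, nsmul_eq_mul, GG, mul_sum]
          congr 1
          exact sum_congr rfl fun S hS => by rw [sum_ite_eq, if_pos hS]
      _ ≤ K * GG P z + z * (z * z ^ 2) := by gcongr
      _ = _ := by ring
  have h1 : (z : ℝ) ^ 4 ≤ z ^ 4 * GG P z ^ 2 :=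
    le_mul_of_one_le_right (by positivity) (one_le_pow₀ hG)
  have h2 : (K / GG P z + z ^ 4) * GG P z ^ 2 = K * GG P z + z ^ 4 * GG P z ^ 2 := by
    field_simp
  exact le_of_mul_le_mul_right (by rw [h2]; linarith) (by positivity : 0 < GG P z ^ 2)

lemma sum_le_of_injOn {α β : Type} [DecidableEq β] {s : Finset α} {t : Finset β} {f : α → ℝ}
    {g : β → ℝ} (e : α → β) (h1 : ∀ x ∈ s, e x ∈ t) (h2 : Set.InjOn e s)
    (h3 : ∀ x ∈ s, f x = g (e x)) (h4 : ∀ y, 0 ≤ g y) : ∑ x ∈ s, f x ≤ ∑ y ∈ t, g y := by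
  rw [sum_congr rfl h3, ← sum_image h2]
  exact sum_le_sum_of_subset_of_nonneg (image_subset_iff.2 h1) fun _ _ _ => h4 _

lemma log_le_GG (z : ℕ) : Real.log z ≤ 2 * GG ((Icc 1 z).filter Nat.Prime) z := by
  have h1 : Real.log z ≤ ∑ n ∈ Icc 1 z, (1 / n : ℝ) := by
    have := log_le_harmonic_floor z (Nat.cast_nonneg z)
    rw [Nat.floor_natCast, harmonic_eq_sum_Icc] at this
    simpa using this
  have h2 : ∑ n ∈ Icc 1 z, (1 / n ^ 2 : ℝ) ≤ 2 := by
    have := sum_Ioo_inv_sq_le (α := ℝ) 0 (z + 1)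
    have e : Ioo 0 (z + 1) = Icc 1 z := by ext; simp; omega
    rw [e] at this
    simpa using this
  choose d s hds hd using Nat.sq_mul_squarefree
  have h3 : ∀ n ∈ Icc 1 z, s n ∈ Icc 1 z ∧ d n ≤ z := fun n hn => by
    rw [mem_Icc] at hn ⊢
    have h4 := hds n
    have h5 : 0 < s n := Nat.pos_of_ne_zero fun h => by rw [h] at h4; omega
    have h6 : 0 < d n := Nat.pos_of_ne_zero (hd n).ne_zero
    refine ⟨⟨h5, ?_⟩, ?_⟩ <;> nlinarith [Nat.mul_pos h5 h5, Nat.mul_pos h5 h6]
  calc _ ≤ ∑ n ∈ Icc 1 z, (1 / n : ℝ) := h1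
    _ ≤ ∑ x ∈ Icc 1 z ×ˢ sets ((Icc 1 z).filter Nat.Prime) z,
        (1 / (x.1 : ℝ) ^ 2) * ∏ l ∈ x.2, (1 / l : ℝ) := by
        refine sum_le_of_injOn (fun n => (s n, (d n).primeFactors)) (fun n hn => ?_)
          (fun n _ n' _ h => ?_) (fun n _ => ?_) fun _ => by positivity
        · simp only [sets, mem_product, mem_filter, mem_powerset,
            Nat.prod_primeFactors_of_squarefree (hd n)]
          refine ⟨(h3 n hn).1, fun l hl => ?_, (h3 n hn).2⟩
          have := Nat.prime_of_mem_primeFactors hl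
          exact mem_filter.2 ⟨mem_Icc.2 ⟨this.pos, (Nat.le_of_mem_primeFactors hl).trans
            (h3 n hn).2⟩, this⟩
        · simp only [Prod.mk.injEq] at h
          rw [← hds n, ← hds n', h.1, ← Nat.prod_primeFactors_of_squarefree (hd n), h.2,
            Nat.prod_primeFactors_of_squarefree (hd n')]
        · simp only [prod_div_distrib, prod_const_one]
          rw [← Nat.cast_prod, Nat.prod_primeFactors_of_squarefree (hd n), div_mul_div_comm,
            one_mul]
          congr 1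
          exact_mod_cast (hds n).symm
    _ = (∑ n ∈ Icc 1 z, (1 / n ^ 2 : ℝ)) * GG ((Icc 1 z).filter Nat.Prime) z := by
        rw [GG, sum_mul_sum, sum_product]
    _ ≤ _ := mul_le_mul_of_nonneg_right h2 (sum_nonneg fun _ _ => by positivity)

lemma GG_le {P : Finset ℕ} (hP : ∀ l ∈ P, l.Prime) {q : ℕ} (hq : q ≠ 0) (z : ℕ) :
    q.totient * GG P z ≤ q * GG (P.filter fun l => ¬ l ∣ q) z := by
  have h1 : GG P z ≤ (∏ l ∈ q.primeFactors, (1 + 1 / l : ℝ)) *
      GG (P.filter fun l => ¬ l ∣ q) z := by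
    rw [prod_one_add, GG, GG, sum_mul_sum, ← sum_product']
    refine sum_le_of_injOn (fun S => (S.filter (· ∣ q), S.filter fun l => ¬ l ∣ q))
      (fun S hS => ?_) (fun S _ T _ h => ?_) (fun S _ => ?_) fun _ => by positivity
    · simp only [sets, mem_product, mem_filter, mem_powerset] at hS ⊢
      refine ⟨fun l hl => ?_, filter_subset_filter _ hS.1, le_trans ?_ hS.2⟩
      · rw [mem_filter] at hl
        exact Nat.mem_primeFactors.2 ⟨hP l (hS.1 hl.1), hl.2, hq⟩
      · exact prod_le_prod_of_subset_of_one_le' (filter_subset _ _) fun l hl _ =>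
          (hP l (hS.1 hl)).one_le
    · simp only [Prod.mk.injEq] at h
      rw [← filter_union_filter_not_eq (· ∣ q) S, ← filter_union_filter_not_eq (· ∣ q) T,
        h.1, h.2]
    · exact (prod_filter_mul_prod_filter_not S (· ∣ q) _).symm
  have h2 : (q.totient : ℝ) = q * ∏ l ∈ q.primeFactors, (1 - 1 / l : ℝ) := by
    have := congrArg (Rat.cast : ℚ → ℝ) (Nat.totient_eq_mul_prod_factors q)
    simpa using this
  have h3 : (∏ l ∈ q.primeFactors, (1 - 1 / l : ℝ)) * ∏ l ∈ q.primeFactors, (1 + 1 / l : ℝ) ≤ 1 := by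
    rw [← prod_mul_distrib]
    refine prod_le_one (fun l hl => ?_) fun l hl => by nlinarith [sq_nonneg (1 / l : ℝ)]
    have h1 : (1 : ℝ) ≤ l := by exact_mod_cast (Nat.prime_of_mem_primeFactors hl).one_le
    have h2 : (1 : ℝ) / l ≤ 1 := (div_le_one (by linarith)).2 h1
    exact mul_nonneg (by linarith) (by positivity)
  have h4 : 0 ≤ GG (P.filter fun l => ¬ l ∣ q) z := sum_nonneg fun _ _ => by positivity
  calc _ ≤ q.totient * ((∏ l ∈ q.primeFactors, (1 + 1 / l : ℝ)) *
        GG (P.filter fun l => ¬ l ∣ q) z) := by gcongr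
    _ = q * (((∏ l ∈ q.primeFactors, (1 - 1 / l : ℝ)) * ∏ l ∈ q.primeFactors, (1 + 1 / l : ℝ)) *
        GG (P.filter fun l => ¬ l ∣ q) z) := by rw [h2]; ring
    _ ≤ q * (1 * GG (P.filter fun l => ¬ l ∣ q) z) := by gcongr
    _ = _ := by ring

/-- Brun-Titchmarsh -/
theorem brun_titchmarsh {q z : ℕ} (hq : q ≠ 0) (hz : 2 ≤ z) (a N : ℕ) :
    q.totient * (((Icc 1 N).filter fun p => p.Prime ∧ p ≡ a [MOD q]).card : ℝ) ≤
      2 * (N + q) / Real.log z + q * (z ^ 4 + z) := by
  set P := ((Icc 1 z).filter Nat.Prime).filter fun l => ¬ l ∣ q with hP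
  have h1 := selberg (q := q) (z := z) (P := P) (by omega) (fun l hl => by
    simp only [hP, mem_filter] at hl; exact ⟨hl.1.2, hl.2⟩) (a % q) (N / q + 1)
  have h2 : ((Icc 1 N).filter fun p => p.Prime ∧ p ≡ a [MOD q]).card ≤
      ((range (N / q + 1)).filter fun k => ∀ l ∈ P, ¬ l ∣ a % q + q * k).card + z := by
    have : (Icc 1 N).filter (fun p => p.Prime ∧ p ≡ a [MOD q]) ⊆
        ((range (N / q + 1)).filter fun k => ∀ l ∈ P, ¬ l ∣ a % q + q * k).image
          (fun k => a % q + q * k) ∪ Icc 1 z := fun p hp => by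
      simp only [mem_filter, mem_Icc, mem_union, mem_image, mem_range] at hp ⊢
      obtain ⟨⟨p1, p2⟩, p3, p4⟩ := hp
      rcases le_or_gt p z with h | h
      · exact Or.inr ⟨p1, h⟩
      · have e : a % q + q * (p / q) = p := by rw [← p4]; exact Nat.mod_add_div p q
        refine Or.inl ⟨p / q, ⟨Nat.lt_succ_of_le (Nat.div_le_div_right p2), fun l hl hd => ?_⟩, e⟩
        simp only [hP, mem_filter, mem_Icc] at hl
        rw [e, Nat.prime_dvd_prime_iff_eq hl.1.2 p3] at hd
        omega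
    exact (card_le_card this).trans ((card_union_le _ _).trans
      (add_le_add card_image_le (by simp)))
  have h3 := GG_le (P := (Icc 1 z).filter Nat.Prime) (fun l hl => (mem_filter.1 hl).2) hq z
  have h4 := log_le_GG z
  have h5 : 0 < Real.log z := Real.log_pos (by exact_mod_cast hz)
  have h6 := one_le_GG P (z := z) (by omega)
  have h7 : (q.totient : ℝ) ≤ q := by exact_mod_cast q.totient_le
  have h8 : (q : ℝ) * ((N / q + 1 : ℕ) : ℝ) ≤ N + q := by
    have := Nat.mul_div_le N q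
    exact_mod_cast (by rw [mul_add]; omega : q * (N / q + 1) ≤ N + q)
  have h9 : q.totient * (((N / q + 1 : ℕ) : ℝ) / GG P z) ≤ 2 * (N + q) / Real.log z := by
    rw [← mul_div_assoc, div_le_div_iff₀ (by linarith) h5]
    calc _ = ((N / q + 1 : ℕ) : ℝ) * (q.totient * Real.log z) := by ring
      _ ≤ ((N / q + 1 : ℕ) : ℝ) * (q.totient * (2 * GG ((Icc 1 z).filter Nat.Prime) z)) := by
          gcongr
      _ ≤ ((N / q + 1 : ℕ) : ℝ) * (2 * (q * GG P z)) := by
          refine mul_le_mul_of_nonneg_left ?_ (by positivity)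
          linarith
      _ = 2 * (q * ((N / q + 1 : ℕ) : ℝ)) * GG P z := by ring
      _ ≤ _ := by gcongr
  have h10 : (((Icc 1 N).filter fun p => p.Prime ∧ p ≡ a [MOD q]).card : ℝ) ≤
      ((N / q + 1 : ℕ) : ℝ) / GG P z + (z ^ 4 + z) := by
    have : (((Icc 1 N).filter fun p => p.Prime ∧ p ≡ a [MOD q]).card : ℝ) ≤
      (((range (N / q + 1)).filter fun k => ∀ l ∈ P, ¬ l ∣ a % q + q * k).card : ℝ) + z := by
      exact_mod_cast h2
    linarith
  calc _ ≤ q.totient * (((N / q + 1 : ℕ) : ℝ) / GG P z + (z ^ 4 + z)) := by gcongr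
    _ ≤ _ := by rw [mul_add]; gcongr

end Pool.Agent.MP_d0fd9b_nt
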