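import Pool.Agent.MP_d0fd9b_nt.Count
import Pool.Agent.MP_d0fd9b_nt.Sieve

/-! Pointwise and average bounds for the number of square roots of a prime modulo `m`. -/

set_option autoImplicit false

namespace Pool.Agent.MP_d0fd9b_nt

open Finset Pool.Agent.MP_070445_nt

lemma coprime_of_mem_sq {p m r : ℕ} (hp : p.Prime) (m0 : 0 < m) (hm : m < p) (hr : r ∈ sq p m) :
    m.Coprime r := by
  have h1 : ((m.gcd r : ℕ) : ℤ) ∣ p := by
    have h2 : ((m.gcd r : ℕ) : ℤ) ∣ (r : ℤ) ^ 2 - p :=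
      (Int.natCast_dvd_natCast.2 (Nat.gcd_dvd_left m r)).trans (mem_filter.1 hr).2
    have h3 : ((m.gcd r : ℕ) : ℤ) ∣ (r : ℤ) ^ 2 :=
      (Int.natCast_dvd_natCast.2 (Nat.gcd_dvd_right m r)).trans (dvd_pow_self _ two_ne_zero)
    simpa using h3.sub h2
  rcases (Nat.dvd_prime hp).1 (Int.natCast_dvd_natCast.1 h1) with h | h
  · exact h
  · have := Nat.gcd_le_left r m0
    omega

lemma card_sq_le {p m : ℕ} (hp : p.Prime) (m0 : 0 < m) (hm : m < p) :
    (sq p m).card ≤ m.divisors.card * 4 := by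
  rcases (sq p m).eq_empty_or_nonempty with h | ⟨r0, h0⟩
  · simp [h]
  have hc : IsCoprime (m : ℤ) r0 := Nat.isCoprime_iff_coprime.2 (coprime_of_mem_sq hp m0 hm h0)
  have key : ∀ r ∈ sq p m, (m : ℤ) ∣ gcd (m : ℤ) ((r : ℤ) - r0) * (r + r0) := fun r hr => by
    apply dvd_gcd_mul_of_dvd_mul
    have := (mem_filter.1 hr).2.sub (mem_filter.1 h0).2
    convert this using 1
    ring
  have := card_le_card_of_injOn (s := sq p m) (t := m.divisors ×ˢ range 4)
    (fun r => (Int.gcd m ((r : ℤ) - r0), 2 * r / m)) (fun r hr => by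
      simp only [coe_product, Set.mem_prod, mem_coe, Nat.mem_divisors, mem_range]
      refine ⟨⟨Int.natCast_dvd_natCast.1 (Int.gcd_dvd_left _ _), m0.ne'⟩, ?_⟩
      have := mem_range.1 (mem_filter.1 hr).1
      rw [Nat.div_lt_iff_lt_mul m0]
      omega) fun r hr r' hr' h => by
      simp only [Prod.mk.injEq] at h
      have k1 := key r hr
      have k2 := key r' hr'
      have d1 := gcd_dvd_right (m : ℤ) ((r : ℤ) - r0)
      have d2 := gcd_dvd_right (m : ℤ) ((r' : ℤ) - r0)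
      obtain ⟨n, hn⟩ := gcd_dvd_left (m : ℤ) ((r : ℤ) - r0)
      rw [← Int.coe_gcd] at k1 k2 d1 d2 hn
      rw [← h.1] at k2 d2
      generalize ((Int.gcd m ((r : ℤ) - r0) : ℕ) : ℤ) = g at *
      have g0 : g ≠ 0 := by rintro rfl; omega
      rw [hn, mul_dvd_mul_iff_left g0] at k1 k2
      obtain ⟨x, hx⟩ := k1
      obtain ⟨y, hy⟩ := k2
      obtain ⟨u, hu⟩ := d1
      obtain ⟨v, hv⟩ := d2
      have e : (m : ℤ) ∣ r0 * (2 * r - 2 * r') := ⟨x * (u - v) - u * (x - y), by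
        have e1 : (r : ℤ) - r' = g * (u - v) := by linear_combination hu - hv
        have e2 : (r : ℤ) - r' = n * (x - y) := by linear_combination hx - hy
        rw [hn]
        linear_combination (r - r' : ℤ) * hx + n * x * e1 - (r - r' : ℤ) * hu - g * u * e2⟩
      have e3 : 2 * r' ≡ 2 * r [MOD m] :=
        (Nat.modEq_iff_dvd).2 (by simpa using hc.dvd_of_dvd_mul_left e)
      have := Nat.mod_add_div (2 * r) m
      rw [h.2, ← e3, Nat.mod_add_div] at this
      omega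
  simpa using this

lemma sum_divisors_le (Y : ℕ) :
    ∑ m ∈ Icc 1 Y, (m.divisors.card : ℝ) ≤ Y * (1 + Real.log Y) := by
  have h1 := ArithmeticFunction.sum_Ioc_sigma0_eq_sum_div Y
  simp_rw [ArithmeticFunction.sigma_zero_apply] at h1
  have h2 := harmonic_le_one_add_log Y
  rw [harmonic_eq_sum_Icc] at h2
  push_cast at h2
  rw [show Icc 1 Y = Ioc 0 Y from rfl] at h2 ⊢
  rw [← Nat.cast_sum, h1, Nat.cast_sum]
  refine le_trans ?_ (mul_le_mul_of_nonneg_left h2 (Nat.cast_nonneg Y))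
  rw [mul_sum]
  exact sum_le_sum fun m _ => Nat.cast_div_le

lemma sum_sqrt_le (Y : ℕ) : ∑ m ∈ Icc 1 Y, √((Y : ℝ) / m) ≤ 2 * Y := by
  have h : ∀ n : ℕ, ∑ m ∈ Icc 1 n, 1 / √(m : ℝ) ≤ 2 * √(n : ℝ) := fun n => by
    induction n with
    | zero => simp
    | succ n ih =>
      rw [sum_Icc_succ_top (by omega)]
      have h1 : 0 < √((n + 1 : ℕ) : ℝ) := Real.sqrt_pos.2 (by positivity)
      have h2 : √((n + 1 : ℕ) : ℝ) ^ 2 = n + 1 := by
        rw [Real.sq_sqrt (by positivity)]; push_cast; ring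
      have h3 : √(n : ℝ) ^ 2 = n := Real.sq_sqrt (by positivity)
      have h4 : 1 / √((n + 1 : ℕ) : ℝ) ≤ 2 * √((n + 1 : ℕ) : ℝ) - 2 * √(n : ℝ) := by
        rw [div_le_iff₀ h1]
        nlinarith [sq_nonneg (√((n + 1 : ℕ) : ℝ) - √(n : ℝ))]
      linarith
  calc _ = √(Y : ℝ) * ∑ m ∈ Icc 1 Y, 1 / √(m : ℝ) := by
        rw [mul_sum]
        exact sum_congr rfl fun m _ => by rw [Real.sqrt_div (by positivity), mul_one_div]
    _ ≤ √(Y : ℝ) * (2 * √(Y : ℝ)) := by gcongr; exact h Y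
    _ = _ := by rw [mul_left_comm, Real.mul_self_sqrt (by positivity)]

lemma sum_sq_le {m z N : ℕ} (m0 : 0 < m) (hz : 2 ≤ z) {S : Finset ℕ}
    (hS : ∀ p ∈ S, p.Prime ∧ m < p ∧ p ≤ N) :
    ∑ p ∈ S, ((sq p m).card : ℝ) ≤ 3 * (2 * (N + m) / Real.log z + m * (z ^ 4 + z)) := by
  set R := (range (2 * m)).filter m.Coprime with hR
  have h1 : (R.card : ℝ) ≤ 3 * m.totient := by
    have := Nat.Ico_filter_coprime_le 0 (2 * m) m0.ne'
    rw [zero_add, Nat.mul_div_cancel _ m0, ← range_eq_Ico, mul_comm m.totient] at this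
    exact_mod_cast this
  have t0 : (0 : ℝ) < m.totient := by exact_mod_cast Nat.totient_pos.2 m0
  have h0 : 0 < Real.log z := Real.log_pos (by exact_mod_cast hz)
  calc _ ≤ ∑ p ∈ S, ((R.filter fun r => p ≡ r ^ 2 [MOD m]).card : ℝ) := by
        refine sum_le_sum fun p hp => Nat.cast_le.2 (card_le_card fun r hr => ?_)
        obtain ⟨p1, p2, -⟩ := hS p hp
        simp only [hR, mem_filter]
        exact ⟨⟨(mem_filter.1 hr).1, coprime_of_mem_sq p1 m0 p2 hr⟩,
          Nat.modEq_iff_dvd.2 (by simpa using (mem_filter.1 hr).2)⟩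
    _ = ∑ r ∈ R, ((S.filter fun p => p ≡ r ^ 2 [MOD m]).card : ℝ) := by
        simp only [card_filter, Nat.cast_sum]
        exact sum_comm
    _ ≤ ∑ r ∈ R, (2 * (N + m) / Real.log z + m * (z ^ 4 + z)) / m.totient := by
        refine sum_le_sum fun r _ => ?_
        rw [le_div_iff₀' t0]
        refine le_trans ?_ (brun_titchmarsh m0.ne' hz (r ^ 2) N)
        refine mul_le_mul_of_nonneg_left (Nat.cast_le.2 (card_le_card fun p hp => ?_)) t0.le
        rw [mem_filter] at hp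
        obtain ⟨p1, -, p3⟩ := hS p hp.1
        exact mem_filter.2 ⟨mem_Icc.2 ⟨p1.pos, p3⟩, p1, hp.2⟩
    _ ≤ 3 * m.totient * ((2 * (N + m) / Real.log z + m * (z ^ 4 + z)) / m.totient) := by
        rw [sum_const, nsmul_eq_mul]
        gcongr
    _ = _ := by field_simp

lemma classNum_le {p : ℕ} (hp : p.Prime) : (classNum p : ℝ) ≤ 50 * p := by
  have h1 := (prime_count hp (Nat.le_ceil (4 * √p))).1
  have h2 : (⌈4 * √(p : ℝ)⌉₊ : ℝ) ≤ 5 * √p := by
    have := Nat.ceil_lt_add_one (by positivity : 0 ≤ 4 * √(p : ℝ))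
    have : (1 : ℝ) ≤ √p := Real.one_le_sqrt.2 (by exact_mod_cast hp.one_le)
    linarith
  generalize ⌈4 * √(p : ℝ)⌉₊ = Y at *
  have h3 : classNum p ≤ Y * (2 * Y) := by
    refine h1.trans ((sum_le_card_nsmul _ _ (2 * Y) fun m hm => ?_).trans (by simp))
    have := mem_Icc.1 hm
    exact (card_filter_le _ _).trans (by rw [card_range]; omega)
  calc (classNum p : ℝ) ≤ Y * (2 * Y) := by exact_mod_cast h3
    _ ≤ 5 * √p * (2 * (5 * √p)) := by gcongr
    _ = 50 * (√p * √p) := by ring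
    _ = _ := by rw [Real.mul_self_sqrt (by positivity)]

open Classical in
theorem sum_bound {N Y z M : ℕ} {B : ℝ} (hY : 4 * √N ≤ Y) (hYN : Y ≤ N) (hz : 2 ≤ z) (hM : 0 < M)
    (hB : 2 ^ M * Y ≤ B) :
    ∑ p ∈ (Icc 1 N).filter Nat.Prime, (classNum p : ℝ) ≤ 50 * Y ^ 2 +
      2 * ((Icc 1 (4 * N)).filter fun D => UnitLe D B).card * (4 * (Y * (1 + Real.log Y))) +
      12 * Y * (4 * N / Real.log z + Y * (z ^ 4 + z)) / M := by
  have hY' : ∀ p ≤ N, 4 * √(p : ℝ) ≤ Y := fun p hp => le_trans (by gcongr) hY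
  have h0 : 0 < Real.log z := Real.log_pos (by exact_mod_cast hz)
  have hM' : (0 : ℝ) < M := by exact_mod_cast hM
  set P := (Icc 1 N).filter Nat.Prime with hP
  rw [← sum_filter_add_sum_filter_not P (· ≤ Y), add_assoc,
    ← sum_filter_add_sum_filter_not (P.filter fun p => ¬ p ≤ Y)
      fun p => UnitLe p B ∨ UnitLe (4 * p) B]
  refine add_le_add ?_ (add_le_add ?_ ?_)
  · calc _ ≤ ∑ p ∈ P.filter (· ≤ Y), (50 * Y : ℝ) := by
          refine sum_le_sum fun p hp => ?_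
          simp only [hP, mem_filter] at hp
          exact (classNum_le hp.1.2).trans (by gcongr; exact hp.2)
      _ ≤ Y * (50 * Y) := by
          rw [sum_const, nsmul_eq_mul]
          gcongr
          refine (card_le_card (t := Icc 1 Y) fun p hp => ?_).trans (by simp)
          simp only [hP, mem_filter, mem_Icc] at hp ⊢
          exact ⟨hp.1.1.1, hp.2⟩
      _ = _ := by ring
  · refine (sum_le_card_nsmul _ _ (4 * (Y * (1 + Real.log Y))) fun p hp => ?_).trans ?_
    · simp only [hP, mem_filter, mem_Icc] at hp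
      obtain ⟨⟨⟨⟨-, p1⟩, p2⟩, p3⟩, -⟩ := hp
      calc (classNum p : ℝ) ≤ ∑ m ∈ Icc 1 Y, (m.divisors.card * 4 : ℝ) := by
            exact_mod_cast (prime_count p2 (hY' p p1)).1.trans (sum_le_sum fun m hm =>
              card_sq_le p2 (mem_Icc.1 hm).1 (by have := mem_Icc.1 hm; omega))
        _ ≤ _ := by rw [← sum_mul, mul_comm]; gcongr; exact sum_divisors_le Y
    · rw [nsmul_eq_mul]
      refine mul_le_mul_of_nonneg_right ?_ (by have := Real.log_natCast_nonneg Y; positivity)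
      rw [filter_or, two_mul]
      refine Nat.cast_add (R := ℝ) _ _ ▸ Nat.cast_le.2 ((card_union_le _ _).trans
        (add_le_add (card_le_card fun p hp => ?_) (card_le_card_of_injOn (4 * ·)
          (fun p hp => ?_) fun p _ p' _ h => by simpa using h)))
      · simp only [hP, mem_filter, mem_Icc] at hp ⊢
        exact ⟨⟨by omega, by omega⟩, hp.2⟩
      · simp only [hP, coe_filter, mem_filter, mem_Icc, Set.mem_ofPred_eq] at hp ⊢
        exact ⟨⟨by omega, by omega⟩, hp.2⟩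
  · rw [le_div_iff₀ hM', sum_mul]
    set S := (P.filter fun p => ¬ p ≤ Y).filter fun p => ¬ (UnitLe p B ∨ UnitLe (4 * p) B)
      with hS
    have hS' : ∀ p ∈ S, p.Prime ∧ Y < p ∧ p ≤ N ∧ ¬ UnitLe p B ∧ ¬ UnitLe (4 * p) B :=
      fun p hp => by
        simp only [hS, hP, mem_filter, mem_Icc, not_or, not_le] at hp
        tauto
    calc _ ≤ ∑ p ∈ S, ∑ m ∈ Icc 1 Y, ((sq p m).card : ℝ) * (2 * √(Y / m)) := by
          refine sum_le_sum fun p hp => ?_
          obtain ⟨p1, -, p3, p4, p5⟩ := hS' p hp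
          exact (prime_count p1 (hY' p p3)).2 M B hB p4 p5
      _ = ∑ m ∈ Icc 1 Y, (∑ p ∈ S, ((sq p m).card : ℝ)) * (2 * √(Y / m)) := by
          rw [sum_comm]; simp_rw [sum_mul]
      _ ≤ ∑ m ∈ Icc 1 Y, 3 * (4 * N / Real.log z + Y * (z ^ 4 + z)) * (2 * √(Y / m)) := by
          refine sum_le_sum fun m hm => mul_le_mul_of_nonneg_right ?_ (by positivity)
          obtain ⟨m1, m2⟩ := mem_Icc.1 hm
          refine (sum_sq_le (N := N) m1 hz fun p hp => ?_).trans ?_
          · obtain ⟨p1, p2, p3, -⟩ := hS' p hp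
            exact ⟨p1, by omega, p3⟩
          · have : (m : ℝ) ≤ N := by exact_mod_cast m2.trans hYN
            have : 2 * (N + m : ℝ) ≤ 4 * N := by linarith
            gcongr
      _ = 6 * (4 * N / Real.log z + Y * (z ^ 4 + z)) * ∑ m ∈ Icc 1 Y, √((Y : ℝ) / m) := by
          rw [mul_sum]; exact sum_congr rfl fun _ _ => by ring
      _ ≤ 6 * (4 * N / Real.log z + Y * (z ^ 4 + z)) * (2 * Y) := by
          gcongr; exact sum_sqrt_le Y
      _ = _ := by ring

end Pool.Agent.MP_d0fd9b_nt
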