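import Pool.Agent.MP_d0fd9b_nt.Ideal

/-! Counting ideal classes by primitive ideals of small norm. -/

set_option autoImplicit false

namespace Pool.Agent.MP_d0fd9b_nt

open QuadraticAlgebra Ideal Finset Pool.Agent.MP_070445_nt

variable {a b : ℤ}

/-- roots of the norm polynomial modulo `m` -/
def roots (a b : ℤ) (m : ℕ) : Finset ℕ :=
  (range m).filter fun c => (m : ℤ) ∣ (c : ℤ) ^ 2 + b * c - a

lemma card_le_sqrt {S : Finset ℕ} {z : ℝ}
    (h : ∀ j ∈ S, ∀ j' ∈ S, (2 : ℝ) ^ j' ≤ 2 ^ j * z) : (S.card : ℝ) ≤ 2 * √z := by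
  rcases S.eq_empty_or_nonempty with rfl | hS
  · simp
  obtain ⟨k, hk⟩ := Nat.exists_eq_add_of_le (S.min'_le_max' hS)
  have h1 : S.card ≤ k + 1 := by
    have : S ⊆ Icc (S.min' hS) (S.max' hS) := fun x hx =>
      mem_Icc.2 ⟨S.min'_le x hx, S.le_max' x hx⟩
    have := card_le_card this
    rw [Nat.card_Icc] at this
    omega
  have h2 := h _ (S.min'_mem hS) _ (S.max'_mem hS)
  rw [hk, pow_add] at h2
  have h3 : (2 : ℝ) ^ k ≤ z := le_of_mul_le_mul_left h2 (by positivity)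
  have h4 : ∀ n : ℕ, (n + 1) ^ 2 ≤ 4 * 2 ^ n := fun n => by
    induction n with
    | zero => norm_num
    | succ n ih =>
      rcases Nat.lt_or_ge n 2 with h | h
      · interval_cases n <;> norm_num
      · rw [pow_succ 2]; nlinarith
  have h5 : ((k : ℝ) + 1) ^ 2 ≤ 4 * 2 ^ k := by exact_mod_cast h4 k
  have h6 : ((k : ℝ) + 1) / 2 ≤ √z := Real.le_sqrt_of_sq_le (by nlinarith)
  have h7 : (S.card : ℝ) ≤ k + 1 := by exact_mod_cast h1
  linarith

theorem class_count [IsDedekindDomain (QuadraticAlgebra ℤ a b)] {δ : ℝ} (h1 : 1 ≤ δ)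
    (hδ : δ * δ = b ^ 2 + 4 * a) {Y : ℕ} (hY : 2 * δ ≤ Y) :
    Nat.card (ClassGroup (QuadraticAlgebra ℤ a b)) ≤ ∑ m ∈ Icc 1 Y, (roots a b m).card ∧
    ∀ M : ℕ, (∀ u : (QuadraticAlgebra ℤ a b)ˣ,
      |em ((b + δ) / 2) (u : QuadraticAlgebra ℤ a b)| ≤ 2 ^ M * Y →
      |em ((b + δ) / 2) (u : QuadraticAlgebra ℤ a b)| ≤ 1) →
      (Nat.card (ClassGroup (QuadraticAlgebra ℤ a b)) : ℝ) * M ≤
        ∑ m ∈ Icc 1 Y, ((roots a b m).card : ℝ) * (2 * √(Y / m)) := by
  classical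
  rcases finite_or_infinite (ClassGroup (QuadraticAlgebra ℤ a b)) with hf | hf
  swap
  · simp only [Nat.card_eq_zero_of_infinite, zero_le, Nat.cast_zero, zero_mul, true_and]
    exact fun _ _ => by positivity
  let _ := Fintype.ofFinite (ClassGroup (QuadraticAlgebra ℤ a b))
  choose I hI using ClassGroup.mk0_surjective (R := QuadraticAlgebra ℤ a b)
  have I0 : ∀ A, (I A : Ideal (QuadraticAlgebra ℤ a b)) ≠ ⊥ := fun A => nonZeroDivisors.ne_zero (I A).2
  choose α m c α0 m0 mδ cm hdv hsp low up using fun A j => exists_data h1 hδ (I0 A) j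
  let T : Finset ((_ : ℕ) × ℕ) := (Icc 1 Y).sigma (roots a b)
  let F : ClassGroup (QuadraticAlgebra ℤ a b) → ℕ → (_ : ℕ) × ℕ := fun A j => ⟨m A j, c A j⟩
  have hT : ∀ A j, F A j ∈ T := fun A j => by
    have : (m A j : ℝ) ≤ Y := by linarith [mδ A j]
    simp only [T, F, mem_sigma, mem_Icc, roots, mem_filter, mem_range]
    exact ⟨⟨m0 A j, by exact_mod_cast this⟩, cm A j, hdv A j⟩
  have hcl : ∀ A j A' j', F A j = F A' j' → A = A' := fun A j A' j' h => by
    simp only [F, Sigma.mk.injEq, heq_eq_eq] at h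
    have J0 : JJ a b (m A j) (c A j) ≠ 0 := fun h0 => by
      have := hsp A j
      rw [h0, mul_zero, eq_comm, zero_eq_bot, span_singleton_eq_bot] at this
      exact α0 A j this
    have e1 := (ClassGroup.mk0_eq_mk0_inv_iff (I := I A)
      (J := ⟨_, mem_nonZeroDivisors_of_ne_zero J0⟩)).2 ⟨_, α0 A j, hsp A j⟩
    have e2 := (ClassGroup.mk0_eq_mk0_inv_iff (I := I A')
      (J := ⟨_, mem_nonZeroDivisors_of_ne_zero J0⟩)).2 ⟨_, α0 A' j', by
        have := hsp A' j'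
        rwa [← h.1, ← h.2] at this⟩
    rw [← hI A, ← hI A', e1, e2]
  rw [Nat.card_eq_fintype_card]
  refine ⟨?_, fun M hu => ?_⟩
  · rw [← card_sigma, ← card_univ]
    exact card_le_card_of_injOn (fun A => F A 0) (fun A _ => hT A 0) fun A _ A' _ h => hcl _ _ _ _ h
  have hw : ((b : ℝ) + δ) / 2 * ((b + δ) / 2) = a + b * ((b + δ) / 2) := by
    linear_combination hδ / 4
  have key := card_eq_sum_card_fiberwise (s := univ ×ˢ range M) (t := T)
    (f := fun x => F x.1 x.2) fun x _ => hT _ _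
  rw [card_product, card_univ, card_range] at key
  have e : ∑ m ∈ Icc 1 Y, ((roots a b m).card : ℝ) * (2 * √(Y / m)) =
      ∑ t ∈ T, 2 * √((Y : ℝ) / t.1) := by
    rw [sum_sigma]; simp
  rw [e, ← Nat.cast_mul, key, Nat.cast_sum]
  refine sum_le_sum fun t ht => ?_
  set S := (univ ×ˢ range M).filter fun x => F x.1 x.2 = t with hS
  have hinj : Set.InjOn Prod.snd (S : Set (ClassGroup (QuadraticAlgebra ℤ a b) × ℕ)) := by
    intro x hx y hy h
    exact Prod.ext (hcl _ _ _ _ ((mem_filter.1 hx).2.trans (mem_filter.1 hy).2.symm)) h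
  rw [← card_image_of_injOn hinj]
  refine card_le_sqrt fun j hj j' hj' => ?_
  obtain ⟨⟨A, i⟩, hx, rfl⟩ := mem_image.1 hj
  obtain ⟨⟨A', i'⟩, hy, rfl⟩ := mem_image.1 hj'
  obtain ⟨x1, x2⟩ := mem_filter.1 hx
  obtain ⟨y1, y2⟩ := mem_filter.1 hy
  have h := x2.trans y2.symm
  obtain rfl := hcl _ _ _ _ h
  subst x2
  simp only [F, Sigma.mk.injEq, heq_eq_eq] at h
  simp only [F]
  have hass : Associated (α A i) (α A i') := by
    rw [← span_singleton_eq_span_singleton, ← hsp, ← hsp, h.1, h.2]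
  obtain ⟨u, hu'⟩ := hass
  have hi' : i' < M := by simpa using y1
  have N0 : (0 : ℝ) < absNorm (I A : Ideal (QuadraticAlgebra ℤ a b)) := by
    exact_mod_cast Nat.pos_of_ne_zero fun h => I0 A (absNorm_eq_zero_iff.1 h)
  have l1 := low A i
  have l2 := low A i'
  have u1 := up A i
  have u2 := up A i'
  have m1 : (1 : ℝ) ≤ m A i := by exact_mod_cast m0 A i
  rw [← h.1] at l2
  rw [← hu', em_mul hw, abs_mul] at l2 u2
  generalize |em ((b + δ) / 2) (α A i)| = s at *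
  generalize (absNorm (I A : Ideal (QuadraticAlgebra ℤ a b)) : ℝ) = N at *
  have p1 : (1 : ℝ) ≤ 2 ^ i := one_le_pow₀ one_le_two
  have p2 : (2 : ℝ) ^ (i' + 1) ≤ 2 ^ M := pow_le_pow_right₀ one_le_two hi'
  have p3 : N ≤ s := by
    have : N * 1 * 1 ≤ N * m A i * 2 ^ i := by gcongr
    linarith
  have p4 := hu u (by
    have q1 : N * |em ((b + δ) / 2) (u : QuadraticAlgebra ℤ a b)| ≤ N * (2 ^ M * Y) := by
      calc _ ≤ s * |em ((b + δ) / 2) (u : QuadraticAlgebra ℤ a b)| := by gcongr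
        _ ≤ 2 ^ (i' + 1) * N * δ := u2
        _ ≤ 2 ^ M * N * Y := by gcongr; linarith
        _ = _ := by ring
    exact le_of_mul_le_mul_left q1 N0)
  have p5 : N * (m A i * 2 ^ i') ≤ N * (2 ^ i * Y) := by
    calc _ = N * m A i * 2 ^ i' := by ring
      _ ≤ s * |em ((b + δ) / 2) (u : QuadraticAlgebra ℤ a b)| := l2.le
      _ ≤ s * 1 := by gcongr; linarith
      _ ≤ 2 ^ (i + 1) * N * δ := by linarith
      _ = N * (2 ^ i * (2 * δ)) := by ring
      _ ≤ _ := by gcongr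
  have p6 := le_of_mul_le_mul_left p5 N0
  rw [← mul_div_assoc, le_div_iff₀ (by linarith)]
  linarith

/-- square roots of `p` modulo `m` in `[0, 2m)` -/
def sq (p m : ℕ) : Finset ℕ := (range (2 * m)).filter fun r => (m : ℤ) ∣ (r : ℤ) ^ 2 - p

theorem prime_count {p : ℕ} (hp : p.Prime) {Y : ℕ} (hY : 4 * √p ≤ Y) :
    classNum p ≤ ∑ m ∈ Icc 1 Y, (sq p m).card ∧
    ∀ (M : ℕ) (B : ℝ), 2 ^ M * Y ≤ B → ¬ UnitLe p B → ¬ UnitLe (4 * p) B →
      (classNum p : ℝ) * M ≤ ∑ m ∈ Icc 1 Y, ((sq p m).card : ℝ) * (2 * √(Y / m)) := by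
  obtain ⟨a, b, hd, hab, he⟩ := classNum_eq hp
  have p1 : (1 : ℝ) ≤ p := by exact_mod_cast hp.one_le
  have s1 : (1 : ℝ) ≤ √p := Real.one_le_sqrt.2 p1
  have hr : ∀ m, (roots a b m).card ≤ (sq p m).card := fun m => by
    rcases hab with ⟨rfl, h⟩ | ⟨rfl, rfl⟩
    · refine card_le_card_of_injOn (fun c => 2 * c + 1) (fun c hc => ?_) fun c _ c' _ h => by
        simpa using h
      simp only [roots, sq, coe_filter, mem_range, Set.mem_ofPred_eq] at hc ⊢
      refine ⟨by omega, ?_⟩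
      obtain ⟨k, hk⟩ := hc.2
      exact ⟨4 * k, by rw [← h]; push_cast; linear_combination 4 * hk⟩
    · refine card_le_card fun c hc => ?_
      simp only [roots, sq, mem_filter, mem_range] at hc ⊢
      exact ⟨by omega, by simpa using hc.2⟩
  obtain ⟨D, hD, hD1, hD2, hD3⟩ : ∃ D : ℕ, b ^ 2 + 4 * a = D ∧ 1 ≤ √(D : ℝ) ∧ √(D : ℝ) ≤ 2 * √p ∧
      (D = p ∨ D = 4 * p) := by
    rcases hab with ⟨rfl, h⟩ | ⟨rfl, rfl⟩
    · exact ⟨p, by linarith, s1, by linarith, Or.inl rfl⟩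
    · have : √((4 * p : ℕ) : ℝ) = 2 * √p := by
        push_cast
        rw [Real.sqrt_mul (by norm_num), show (4 : ℝ) = 2 ^ 2 by norm_num, Real.sqrt_sq zero_le_two]
      exact ⟨4 * p, by simp, by linarith, this.le, Or.inr rfl⟩
  have hδ : √(D : ℝ) * √D = b ^ 2 + 4 * a := by
    rw [Real.mul_self_sqrt (Nat.cast_nonneg D)]; exact_mod_cast hD.symm
  obtain ⟨c1, c2⟩ := class_count hD1 hδ (Y := Y) (by linarith)
  rw [he]
  refine ⟨c1.trans (sum_le_sum fun m _ => hr m), fun M B hB n1 n2 => (c2 M fun u hu => ?_).trans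
    (sum_le_sum fun m _ => mul_le_mul_of_nonneg_right (Nat.cast_le.2 (hr m))
      (by positivity))⟩
  by_contra hc
  have := unitLe hD u (not_le.1 hc) (hu.trans hB)
  rcases hD3 with rfl | rfl
  exacts [n1 this, n2 this]

end Pool.Agent.MP_d0fd9b_nt
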