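import Mathlib

set_option autoImplicit false

namespace Pool.Agent.MP_d0fd9b_nt

/-- The class number of the field `ℚ(√p)`, taken inside the real numbers: the order of the ideal
class group of its ring of integers. -/
noncomputable def classNum (p : ℕ) : ℕ :=
  Nat.card (ClassGroup (NumberField.RingOfIntegers
    (IntermediateField.adjoin ℚ ({Real.sqrt p} : Set ℝ))))

end Pool.Agent.MP_d0fd9b_nt
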