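import Pool.Agent.MP_d0fd9b_nt.Defs

/-! The ring of integers of `ℚ(√p)` (the first three lemmas are due to helper10). -/

set_option autoImplicit false

namespace Pool.Agent.MP_d0fd9b_nt

open QuadraticAlgebra NumberField

/-- `b² + 4a` is a fundamental discriminant (or `1`). -/
def Fund (a b : ℤ) : Prop :=
  (b = 1 ∧ Squarefree (4 * a + 1)) ∨ (b = 0 ∧ Squarefree a ∧ (a % 4 = 2 ∨ a % 4 = 3))

lemma sqf_dvd {d g v : ℤ} (hd : Squarefree d) (h : g ^ 2 ∣ d * v ^ 2) : g ∣ v := by
  by_cases h0 : Int.gcd g v = 0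
  · rw [Int.gcd_eq_zero_iff] at h0
    rw [h0.2]; exact dvd_zero _
  obtain ⟨g', v', hc, hg, hv⟩ := Int.exists_gcd_one (Nat.pos_of_ne_zero h0)
  set k : ℤ := ((Int.gcd g v : ℕ) : ℤ) with hk
  have k0 : k ≠ 0 := by rw [hk]; exact_mod_cast h0
  have h1 : g' ^ 2 ∣ d * v' ^ 2 := by
    rw [hg, hv] at h
    have e1 : (g' * k) ^ 2 = g' ^ 2 * k ^ 2 := by ring
    have e2 : d * (v' * k) ^ 2 = d * v' ^ 2 * k ^ 2 := by ring
    rw [e1, e2] at h
    exact (mul_dvd_mul_iff_right (pow_ne_zero 2 k0)).1 h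
  have hc' : IsCoprime (g' ^ 2) (v' ^ 2) := (Int.isCoprime_iff_gcd_eq_one.2 hc).pow
  have h2 := hc'.dvd_of_dvd_mul_right h1
  have h3 : IsUnit g' := hd g' (by rwa [← sq])
  rw [hg, hv]
  exact mul_dvd_mul_right h3.dvd k

lemma Fund.key {a b : ℤ} (h : Fund a b) {g u v : ℤ} (h1 : g ∣ 2 * u + b * v)
    (h2 : g ^ 2 ∣ u * u + b * u * v - a * v * v) : g ∣ u ∧ g ∣ v := by
  by_cases g0 : g = 0
  · subst g0
    rw [zero_dvd_iff] at h1
    rw [zero_pow (by norm_num), zero_dvd_iff] at h2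
    have hv : (0 : ℤ) ∣ v := by
      rcases h with ⟨rfl, hs⟩ | ⟨rfl, hs, _⟩
      · apply sqf_dvd hs
        rw [zero_pow (by norm_num), zero_dvd_iff]
        linear_combination (2 * u + v) * h1 - 4 * h2
      · apply sqf_dvd hs
        rw [zero_pow (by norm_num), zero_dvd_iff]
        have : u = 0 := by linarith
        rw [this] at h2
        linear_combination -h2
    rw [zero_dvd_iff] at hv
    rw [hv] at h1
    exact ⟨by rw [zero_dvd_iff]; linarith, by rw [hv]⟩
  obtain ⟨t, ht⟩ := h1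
  obtain ⟨n, hn⟩ := h2
  rcases h with ⟨rfl, hs⟩ | ⟨rfl, hs, h4⟩
  · have e : (4 * a + 1) * v ^ 2 = g ^ 2 * (t ^ 2 - 4 * n) := by
      linear_combination (2 * u + v + g * t) * ht - 4 * hn
    obtain ⟨v', rfl⟩ := sqf_dvd hs ⟨_, e⟩
    have e2 : (4 * a + 1) * v' ^ 2 = t ^ 2 - 4 * n := by
      apply mul_left_cancel₀ (pow_ne_zero 2 g0)
      linear_combination e
    have e3 : (2 : ℤ) ∣ (t - v') ^ 2 :=
      ⟨2 * a * v' ^ 2 + 2 * n + v' ^ 2 - t * v', by linear_combination -e2⟩
    obtain ⟨w, hw⟩ := Int.prime_two.dvd_of_dvd_pow e3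
    refine ⟨⟨w, ?_⟩, dvd_mul_right _ _⟩
    apply mul_left_cancel₀ (two_ne_zero)
    linear_combination ht + g * hw
  · have e : a * (2 * v) ^ 2 = g ^ 2 * (t ^ 2 - 4 * n) := by
      linear_combination (2 * u + g * t) * ht - 4 * hn
    obtain ⟨v', hv'⟩ := sqf_dvd hs ⟨_, e⟩
    have e2 : a * v' ^ 2 = t ^ 2 - 4 * n := by
      apply mul_left_cancel₀ (pow_ne_zero 2 g0)
      rw [hv'] at e
      linear_combination e
    obtain ⟨a', ha'⟩ : ∃ a' : ℤ, a = 4 * a' + 2 ∨ a = 4 * a' + 3 := ⟨a / 4, by omega⟩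
    rcases Int.even_or_odd' v' with ⟨p, rfl | rfl⟩ <;> rcases Int.even_or_odd' t with ⟨q, rfl | rfl⟩
    · exact ⟨⟨q, by linarith⟩, ⟨p, by linarith⟩⟩
    · exfalso
      have : 4 * (a * p ^ 2 - q ^ 2 - q + n) = 1 := by linear_combination e2
      omega
    · exfalso
      rcases ha' with rfl | rfl
      · have : 4 * (a' * (2 * p + 1) ^ 2 + 2 * p ^ 2 + 2 * p - q ^ 2 + n) = -2 := by
          linear_combination e2
        omega
      · have : 4 * (a' * (2 * p + 1) ^ 2 + 3 * p ^ 2 + 3 * p - q ^ 2 + n) = -3 := by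
          linear_combination e2
        omega
    · exfalso
      rcases ha' with rfl | rfl
      · have : 4 * (a' * (2 * p + 1) ^ 2 + 2 * p ^ 2 + 2 * p - q ^ 2 - q + n) = -1 := by
          linear_combination e2
        omega
      · have : 4 * (a' * (2 * p + 1) ^ 2 + 3 * p ^ 2 + 3 * p - q ^ 2 - q + n) = -2 := by
          linear_combination e2
        omega

lemma alg_norm (a b : ℤ) (z : QuadraticAlgebra ℤ a b) : Algebra.norm ℤ z = z.norm := by
  rw [Algebra.norm_apply, ← det_toLinearMap_eq_norm]; rfl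

theorem structure_thm {a b : ℤ} (h : Fund a b) (K : Type) [Field K] [NumberField K]
    (hK : Module.finrank ℚ K = 2) (w : K) (hw : w * w = a + b * w) (hq : ∀ q : ℚ, w ≠ q) :
    ∃ (_ : IsDedekindDomain (QuadraticAlgebra ℤ a b)),
      Nonempty (𝓞 K ≃+* QuadraticAlgebra ℤ a b) := by
  let φ : QuadraticAlgebra ℤ a b →ₐ[ℤ] K := lift ⟨w, by rw [hw]; simp⟩
  let ψ : QuadraticAlgebra ℚ a b →ₐ[ℚ] K := lift ⟨w, by rw [hw]; simp [Algebra.smul_def]⟩
  have φa : ∀ z, φ z = z.re + z.im * w := fun z => by simp [φ]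
  have ψa : ∀ z, ψ z = z.re + z.im * w := fun z => by simp [ψ, Algebra.smul_def]
  have li : ∀ p q : ℚ, (p : K) + q * w = 0 → p = 0 ∧ q = 0 := by
    intro p q hpq
    by_cases q0 : q = 0
    · subst q0; simpa using hpq
    · exfalso
      apply hq (-p / q)
      have : (q : K) ≠ 0 := by exact_mod_cast q0
      push_cast
      field_simp
      linear_combination hpq
  have ψi : Function.Injective ψ := by
    rw [injective_iff_map_eq_zero]
    intro z hz
    rw [ψa] at hz
    obtain ⟨h1, h2⟩ := li _ _ hz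
    ext <;> simp [h1, h2]
  have φi : Function.Injective φ := by
    rw [injective_iff_map_eq_zero]
    intro z hz
    rw [φa] at hz
    obtain ⟨h1, h2⟩ := li z.re z.im (by exact_mod_cast hz)
    ext
    · exact_mod_cast h1
    · exact_mod_cast h2
  have ψs : Function.Surjective ψ :=
    (LinearMap.injective_iff_surjective_of_finrank_eq_finrank (f := ψ.toLinearMap)
      (by rw [hK, finrank_eq_two])).1 ψi
  let _ : Algebra (QuadraticAlgebra ℤ a b) K := φ.toRingHom.toAlgebra
  have hic : IsIntegralClosure (QuadraticAlgebra ℤ a b) ℤ K := by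
    refine ⟨φi, fun {x} => ⟨fun hx => ?_, ?_⟩⟩
    · obtain ⟨z, rfl⟩ := ψs x
      have hz : IsIntegral ℤ z := (isIntegral_algHom_iff (ψ.restrictScalars ℤ) ψi).1 hx
      have hs : IsIntegral ℤ (star z) := hz.map (starRingEnd _).toIntAlgHom
      have inj : Function.Injective (algebraMap ℚ (QuadraticAlgebra ℚ (a : ℚ) (b : ℚ))) :=
        (algebraMap ℚ _).injective
      have ht : IsIntegral ℤ (trace z) := by
        rw [← isIntegral_algebraMap_iff inj, algebraMap_trace_eq_add_star]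
        exact hz.add hs
      have hn : IsIntegral ℤ z.norm := by
        rw [← isIntegral_algebraMap_iff inj, algebraMap_norm_eq_mul_star]
        exact hz.mul hs
      obtain ⟨t, ht⟩ := IsIntegrallyClosed.isIntegral_iff.1 ht
      obtain ⟨n, hn⟩ := IsIntegrallyClosed.isIntegral_iff.1 hn
      simp only [trace_def, norm_def, eq_intCast] at ht hn
      set g : ℤ := z.re.den * z.im.den with hg
      have g0 : (g : ℚ) ≠ 0 := by
        rw [hg]; push_cast
        exact mul_ne_zero (by exact_mod_cast z.re.den_ne_zero) (by exact_mod_cast z.im.den_ne_zero)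
      have hu : ((z.re.num * z.im.den : ℤ) : ℚ) = g * z.re := by
        rw [hg]; push_cast; rw [← Rat.mul_den_eq_num]; ring
      have hv : ((z.im.num * z.re.den : ℤ) : ℚ) = g * z.im := by
        rw [hg]; push_cast; rw [← Rat.mul_den_eq_num]; ring
      generalize z.re.num * z.im.den = u at hu
      generalize z.im.num * z.re.den = v at hv
      obtain ⟨⟨u', hu'⟩, ⟨v', hv'⟩⟩ := h.key (g := g) (u := u) (v := v)
        ⟨t, by
          apply Int.cast_injective (α := ℚ)
          push_cast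
          rw [hu, hv, ht]; ring⟩
        ⟨n, by
          apply Int.cast_injective (α := ℚ)
          push_cast
          rw [hu, hv, hn]; ring⟩
      have e1 : z.re = u' := by
        apply mul_left_cancel₀ g0
        rw [← hu, hu']; push_cast; ring
      have e2 : z.im = v' := by
        apply mul_left_cancel₀ g0
        rw [← hv, hv']; push_cast; ring
      refine ⟨⟨u', v'⟩, ?_⟩
      show φ ⟨u', v'⟩ = ψ z
      rw [φa, ψa, e1, e2]; simp
    · rintro ⟨y, rfl⟩
      exact (Algebra.IsIntegral.isIntegral (R := ℤ) y).map φ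
  have hdom : IsDomain (QuadraticAlgebra ℤ a b) := φi.isDomain φ.toRingHom
  have hded : IsDedekindDomain (QuadraticAlgebra ℤ a b) :=
    IsIntegralClosure.isDedekindDomain ℤ ℚ K _
  let e : 𝓞 K ≃+* QuadraticAlgebra ℤ a b := RingOfIntegers.equiv _
  exact ⟨hded, ⟨e⟩⟩

theorem classNum_eq {p : ℕ} (hp : p.Prime) : ∃ (a b : ℤ)
    (_ : IsDedekindDomain (QuadraticAlgebra ℤ a b)),
    ((b = 1 ∧ 4 * a + 1 = p) ∨ (b = 0 ∧ a = p)) ∧
      classNum p = Nat.card (ClassGroup (QuadraticAlgebra ℤ a b)) := by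
  have hirr : Irrational (Real.sqrt p) := hp.irrational_sqrt
  have hsq : Real.sqrt p * Real.sqrt p = p := Real.mul_self_sqrt (Nat.cast_nonneg p)
  have hroot : Polynomial.aeval (Real.sqrt p) (Polynomial.X ^ 2 - Polynomial.C (p : ℚ)) = 0 := by
    simp [sq, hsq]
  have hmon : (Polynomial.X ^ 2 - Polynomial.C (p : ℚ)).Monic :=
    Polynomial.monic_X_pow_sub_C _ two_ne_zero
  have hint : IsIntegral ℚ (Real.sqrt p) := ⟨_, hmon, by rwa [← Polynomial.aeval_def]⟩
  let K := IntermediateField.adjoin ℚ ({Real.sqrt p} : Set ℝ)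
  have hfin : FiniteDimensional ℚ K := IntermediateField.adjoin.finiteDimensional hint
  have hnf : NumberField K := {}
  have hK : Module.finrank ℚ K = 2 := by
    rw [IntermediateField.adjoin.finrank hint]
    apply le_antisymm
    · have := Polynomial.natDegree_le_natDegree (minpoly.min ℚ _ hmon hroot)
      rwa [Polynomial.natDegree_X_pow_sub_C] at this
    · exact (minpoly.two_le_natDegree_iff hint).2 hirr
  let θ : K := ⟨Real.sqrt p, IntermediateField.mem_adjoin_simple_self ℚ _⟩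
  have hθ2 : θ * θ = (p : K) := Subtype.ext (by simp [θ])
  have hθq : ∀ r : ℚ, θ ≠ r := fun r hr =>
    hirr ⟨r, by simpa using (congrArg Subtype.val hr).symm⟩
  have hs : Squarefree (p : ℤ) := Int.squarefree_natCast.2 hp.squarefree
  have h4 : p % 4 = 1 ∨ p % 4 = 2 ∨ p % 4 = 3 := by
    have : ¬ 4 ∣ p := fun h => by
      have := (Nat.prime_dvd_prime_iff_eq Nat.prime_two hp).1 (Dvd.dvd.trans (by norm_num) h)
      omega
    omega
  rcases h4 with h4 | h4
  · obtain ⟨a, ha⟩ : ∃ a : ℤ, 4 * a + 1 = p := ⟨p / 4, by omega⟩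
    have hF : Fund a 1 := Or.inl ⟨rfl, ha ▸ hs⟩
    obtain ⟨hd, ⟨e⟩⟩ := structure_thm hF K hK ((1 + θ) / 2) (by
      have : ((4 * a + 1 : ℤ) : K) = ((p : ℤ) : K) := by rw [ha]
      push_cast at this ⊢
      linear_combination hθ2 / 4 - this / 4) (by
      intro r hr
      apply hθq (2 * r - 1)
      push_cast
      linear_combination 2 * hr)
    exact ⟨a, 1, hd, Or.inl ⟨rfl, ha⟩, Nat.card_congr (ClassGroup.mulEquiv e).toEquiv⟩
  · have hF : Fund p 0 := Or.inr ⟨rfl, hs, by omega⟩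
    obtain ⟨hd, ⟨e⟩⟩ := structure_thm hF K hK θ (by simpa using hθ2) hθq
    exact ⟨p, 0, hd, Or.inr ⟨rfl, rfl⟩, Nat.card_congr (ClassGroup.mulEquiv e).toEquiv⟩

end Pool.Agent.MP_d0fd9b_nt
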