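import Pool.Agent.MP_d0fd9b_nt.Field
import Pool.Agent.MP_070445_nt.Defs

/-! Class number times logarithm of the fundamental unit is at most a weighted count of primitive
ideals of small norm. -/

set_option autoImplicit false

namespace Pool.Agent.MP_d0fd9b_nt

open QuadraticAlgebra Ideal Finset Pool.Agent.MP_070445_nt

variable {a b : ℤ}

/-- real embedding -/
def em (w : ℝ) (z : QuadraticAlgebra ℤ a b) : ℝ := z.re + z.im * w

lemma em_mul {w : ℝ} (hw : w * w = a + b * w) (x y : QuadraticAlgebra ℤ a b) :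
    em w (x * y) = em w x * em w y := by
  simp only [em, re_mul, im_mul]
  push_cast
  linear_combination (-(x.im : ℝ) * y.im) * hw

lemma em_norm {δ : ℝ} (hδ : δ * δ = b ^ 2 + 4 * a) (z : QuadraticAlgebra ℤ a b) :
    em ((b + δ) / 2) z * em ((b - δ) / 2) z = (z.norm : ℤ) := by
  simp only [em, norm_def]
  push_cast
  linear_combination (-(z.im : ℝ) ^ 2 / 4) * hδ

/-- the primitive ideal `(m, c + ω)` -/
def JJ (a b : ℤ) (m c : ℕ) : Ideal (QuadraticAlgebra ℤ a b) := 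
  span {(m : QuadraticAlgebra ℤ a b), ⟨c, 1⟩}

lemma exists_box [IsDedekindDomain (QuadraticAlgebra ℤ a b)] {δ : ℝ} (h1 : 1 ≤ δ)
    {I : Ideal (QuadraticAlgebra ℤ a b)} (hI : I ≠ ⊥) (j : ℕ) :
    ∃ α ∈ I, α ≠ 0 ∧ |em ((b - δ) / 2) α| * 2 ^ j < 1 ∧
      |em ((b + δ) / 2) α| ≤ 2 ^ (j + 1) * absNorm I * δ := by
  classical
  have hN : absNorm I ≠ 0 := fun h => hI (absNorm_eq_zero_iff.1 h)
  have hfin : Finite (QuadraticAlgebra ℤ a b ⧸ I) := (absNorm_ne_zero_iff I).1 hN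
  let _ : Fintype (QuadraticAlgebra ℤ a b ⧸ I) := Fintype.ofFinite _
  set w : ℝ := (b - δ) / 2 with hw
  let z : ℕ → QuadraticAlgebra ℤ a b := fun y => ⟨-⌊(y : ℝ) * w⌋, y⟩
  have hz : ∀ y, em w (z y) = Int.fract ((y : ℝ) * w) := fun y => by
    simp only [em, z, Int.fract]; push_cast; ring
  let f : ℕ → (QuadraticAlgebra ℤ a b ⧸ I) × ℕ :=
    fun y => (Ideal.Quotient.mk I (z y), ⌊Int.fract ((y : ℝ) * w) * 2 ^ j⌋₊)
  have hc : Fintype.card (QuadraticAlgebra ℤ a b ⧸ I) = absNorm I := by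
    rw [absNorm_apply, Submodule.cardQuot_apply, Nat.card_eq_fintype_card]
  obtain ⟨y, hy, y', hy', hne, he⟩ := exists_ne_map_eq_of_card_lt_of_maps_to
    (s := range (absNorm I * 2 ^ j + 1)) (t := univ ×ˢ range (2 ^ j)) (f := f)
    (by simp [hc]) (fun y _ => by
      simp only [coe_product, coe_univ, coe_range, Set.mem_prod, Set.mem_univ, Set.mem_Iio,
        true_and, f]
      rw [Nat.floor_lt (mul_nonneg (Int.fract_nonneg _) (by positivity))]
      push_cast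
      exact mul_lt_of_lt_one_left (by positivity) (Int.fract_lt_one _))
  simp only [f, Prod.mk.injEq] at he
  have e2 : em w (z y - z y') = Int.fract ((y : ℝ) * w) - Int.fract ((y' : ℝ) * w) := by
    rw [← hz, ← hz]; simp only [em, re_sub, im_sub]; push_cast; ring
  have b2 : |em w (z y - z y')| * 2 ^ j < 1 := by
    have p1 := Nat.floor_le (mul_nonneg (Int.fract_nonneg ((y : ℝ) * w))
      (by positivity : (0 : ℝ) ≤ 2 ^ j))
    have p2 := Nat.floor_le (mul_nonneg (Int.fract_nonneg ((y' : ℝ) * w))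
      (by positivity : (0 : ℝ) ≤ 2 ^ j))
    have p3 := Nat.lt_floor_add_one (Int.fract ((y : ℝ) * w) * 2 ^ j)
    have p4 := Nat.lt_floor_add_one (Int.fract ((y' : ℝ) * w) * 2 ^ j)
    rw [he.2] at p1 p3
    rw [e2, ← abs_of_pos (by positivity : (0 : ℝ) < 2 ^ j), ← abs_mul, sub_mul, abs_lt]
    constructor <;> linarith
  refine ⟨z y - z y', Ideal.Quotient.eq.1 he.1, fun h => hne ?_, b2, ?_⟩
  · have := congrArg QuadraticAlgebra.im h
    simp only [im_sub, z, im_zero] at this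
    omega
  · have e1 : em ((b + δ) / 2) (z y - z y') = em w (z y - z y') + ((y : ℝ) - y') * δ := by
      simp only [em, re_sub, im_sub, z, hw]; push_cast; ring
    have q1 : (y : ℝ) ≤ absNorm I * 2 ^ j := by exact_mod_cast Nat.lt_succ_iff.1 (mem_range.1 hy)
    have q2 : (y' : ℝ) ≤ absNorm I * 2 ^ j := by exact_mod_cast Nat.lt_succ_iff.1 (mem_range.1 hy')
    have q3 : |(y : ℝ) - y'| ≤ absNorm I * 2 ^ j := by
      rw [abs_le]; constructor <;> linarith [Nat.cast_nonneg (α := ℝ) y, Nat.cast_nonneg (α := ℝ) y']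
    have q4 : (1 : ℝ) ≤ 2 ^ j := one_le_pow₀ one_le_two
    have q5 : (1 : ℝ) ≤ absNorm I := by exact_mod_cast Nat.pos_of_ne_zero hN
    have q6 : |em w (z y - z y')| ≤ 1 := by nlinarith [abs_nonneg (em w (z y - z y'))]
    have q7 : (1 : ℝ) ≤ absNorm I * 2 ^ j * δ :=
      one_le_mul_of_one_le_of_one_le (one_le_mul_of_one_le_of_one_le q5 q4) h1
    rw [e1]
    calc _ ≤ |em w (z y - z y')| + |(y : ℝ) - y'| * δ := by
          refine (abs_add_le _ _).trans ?_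
          rw [abs_mul, abs_of_pos (by linarith : 0 < δ)]
      _ ≤ 1 + absNorm I * 2 ^ j * δ := by gcongr
      _ ≤ _ := by rw [pow_succ]; linarith

lemma eq_JJ [IsDedekindDomain (QuadraticAlgebra ℤ a b)] {J : Ideal (QuadraticAlgebra ℤ a b)}
    (hJ : J ≠ ⊥) {z : QuadraticAlgebra ℤ a b} (hz : z ∈ J) (h1 : z.im = 1) :
    ∃ m c : ℕ, 0 < m ∧ m ≤ absNorm J ∧ c < m ∧ (m : ℤ) ∣ (c : ℤ) ^ 2 + b * c - a ∧
      J = JJ a b m c := by
  classical
  have hN : absNorm J ≠ 0 := fun h => hJ (absNorm_eq_zero_iff.1 h)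
  have hex : ∃ m : ℕ, 0 < m ∧ (m : QuadraticAlgebra ℤ a b) ∈ J :=
    ⟨_, Nat.pos_of_ne_zero hN, absNorm_mem J⟩
  obtain ⟨m0, mJ⟩ := Nat.find_spec hex
  set m := Nat.find hex with hm
  have m0' : (0 : ℤ) < m := by exact_mod_cast m0
  have hdvd : ∀ x : ℤ, (x : QuadraticAlgebra ℤ a b) ∈ J → (m : ℤ) ∣ x := fun x hx => by
    by_contra hn
    have h0 : 0 ≤ x % m := Int.emod_nonneg _ m0'.ne'
    have h2 : x % m ≠ 0 := fun h => hn (Int.dvd_of_emod_eq_zero h)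
    have h3 : x % m < m := Int.emod_lt_of_pos _ m0'
    refine Nat.find_min hex (m := (x % m).toNat) (by omega) ⟨by omega, ?_⟩
    have : (((x % m).toNat : ℕ) : QuadraticAlgebra ℤ a b) = x - m * ((x / m : ℤ) : _) := by
      rw [← Int.cast_natCast, Int.toNat_of_nonneg h0, Int.emod_def]; push_cast; ring
    rw [this]
    exact J.sub_mem hx (J.mul_mem_right _ mJ)
  have h0 : 0 ≤ z.re % m := Int.emod_nonneg _ m0'.ne'
  have h3 : z.re % m < m := Int.emod_lt_of_pos _ m0'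
  obtain ⟨c, hc⟩ : ∃ c : ℕ, (c : ℤ) = z.re % m := ⟨_, Int.toNat_of_nonneg h0⟩
  have cJ : (⟨c, 1⟩ : QuadraticAlgebra ℤ a b) ∈ J := by
    have : (⟨c, 1⟩ : QuadraticAlgebra ℤ a b) = z - m * ((z.re / m : ℤ) : _) := by
      ext
      · simp [hc, Int.emod_def]
      · simp [h1]
    rw [this]
    exact J.sub_mem hz (J.mul_mem_right _ mJ)
  refine ⟨m, c, m0, Nat.find_min' hex ⟨Nat.pos_of_ne_zero hN, absNorm_mem J⟩, by omega, ?_, ?_⟩
  · apply hdvd
    have : (((c : ℤ) ^ 2 + b * c - a : ℤ) : QuadraticAlgebra ℤ a b) =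
        ⟨c, 1⟩ * star (⟨c, 1⟩ : QuadraticAlgebra ℤ a b) := by
      rw [← algebraMap_norm_eq_mul_star, norm_def, eq_intCast]
      congr 1; ring
    rw [this]
    exact J.mul_mem_right _ cJ
  · apply le_antisymm
    · intro x hx
      have e : x = ((x.re - c * x.im : ℤ) : QuadraticAlgebra ℤ a b) + (x.im : ℤ) * ⟨c, 1⟩ := by
        ext
        · simp; ring
        · simp
      have h4 : ((x.re - c * x.im : ℤ) : QuadraticAlgebra ℤ a b) ∈ J := by
        rw [eq_sub_of_add_eq e.symm]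
        exact J.sub_mem hx (J.mul_mem_left _ cJ)
      obtain ⟨k, hk⟩ := hdvd _ h4
      rw [JJ, mem_span_pair]
      refine ⟨k, (x.im : ℤ), ?_⟩
      conv_rhs => rw [e, hk]
      push_cast; ring
    · rw [JJ, span_le]
      rintro x (rfl | rfl)
      exacts [mJ, cJ]

lemma exists_data [IsDedekindDomain (QuadraticAlgebra ℤ a b)] {δ : ℝ} (h1 : 1 ≤ δ)
    (hδ : δ * δ = b ^ 2 + 4 * a) {I : Ideal (QuadraticAlgebra ℤ a b)} (hI : I ≠ ⊥) (j : ℕ) :
    ∃ (α : QuadraticAlgebra ℤ a b) (m c : ℕ), α ≠ 0 ∧ 0 < m ∧ (m : ℝ) < 2 * δ ∧ c < m ∧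
      (m : ℤ) ∣ (c : ℤ) ^ 2 + b * c - a ∧ I * JJ a b m c = span {α} ∧
      (absNorm I : ℝ) * m * 2 ^ j < |em ((b + δ) / 2) α| ∧
      |em ((b + δ) / 2) α| ≤ 2 ^ (j + 1) * absNorm I * δ := by
  classical
  have hex : ∃ n : ℕ, ∃ α ∈ I, (α ≠ 0 ∧ |em ((b - δ) / 2) α| * 2 ^ j < 1 ∧
      |em ((b + δ) / 2) α| ≤ 2 ^ (j + 1) * absNorm I * δ) ∧ α.norm.natAbs = n := by
    obtain ⟨α, h2, h3⟩ := exists_box h1 hI j
    exact ⟨_, α, h2, h3, rfl⟩
  obtain ⟨α, αI, ⟨α0, b2, b1⟩, hn⟩ := Nat.find_spec hex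
  obtain ⟨J, hJ⟩ : I ∣ span {α} := dvd_iff_le.2 ((span_singleton_le_iff_mem _).2 αI)
  have J0 : J ≠ ⊥ := by
    rintro rfl
    rw [mul_bot, span_singleton_eq_bot] at hJ
    exact α0 hJ
  have hN : absNorm I ≠ 0 := fun h => hI (absNorm_eq_zero_iff.1 h)
  have hNJ : absNorm J ≠ 0 := fun h => J0 (absNorm_eq_zero_iff.1 h)
  have hnorm : α.norm.natAbs = absNorm I * absNorm J := by
    rw [← map_mul, ← hJ, absNorm_span_singleton, alg_norm]
  let S : AddSubgroup ℤ :=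
    { carrier := {y | ∃ z ∈ J, z.im = y}
      add_mem' := by
        rintro _ _ ⟨x, hx, rfl⟩ ⟨y, hy, rfl⟩
        exact ⟨x + y, J.add_mem hx hy, rfl⟩
      zero_mem' := ⟨0, J.zero_mem, rfl⟩
      neg_mem' := by
        rintro _ ⟨x, hx, rfl⟩
        exact ⟨-x, J.neg_mem hx, rfl⟩ }
  obtain ⟨d, hd⟩ := Int.subgroup_cyclic S
  have hS : ∀ y, y ∈ S ↔ d ∣ y := fun y => by
    rw [hd, AddSubgroup.mem_closure_singleton]
    exact ⟨fun ⟨n, h⟩ => ⟨n, by rw [← h]; simp [mul_comm]⟩, fun ⟨n, h⟩ => ⟨n, by simp [h, mul_comm]⟩⟩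
  have hle : J ≤ span {(d : QuadraticAlgebra ℤ a b)} := fun z hz => by
    obtain ⟨v, hv⟩ := (hS _).1 ⟨z, hz, rfl⟩
    obtain ⟨u, hu⟩ := (hS _).1 ⟨_, J.mul_mem_left omega hz, rfl⟩
    rw [mem_span_singleton]
    refine ⟨⟨u - b * v, v⟩, ?_⟩
    simp only [im_mul, omega_re, omega_im] at hu
    ext
    · simp; linear_combination hu - b * hv
    · simp [hv]
  have hα : α ∈ span {(d : QuadraticAlgebra ℤ a b)} * I := by
    rw [mul_comm]
    exact Ideal.mul_mono_right hle (hJ ▸ mem_span_singleton_self α)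
  obtain ⟨β, βI, hβ⟩ := mem_span_singleton_mul.1 hα
  have hem : ∀ w, |em w α| = |(d : ℝ)| * |em w β| := fun w => by
    rw [← abs_mul, ← hβ]; congr 1; simp [em]; ring
  have d0 : d ≠ 0 := by rintro rfl; exact α0 (by simpa using hβ.symm)
  have d1 : (1 : ℝ) ≤ |(d : ℝ)| := by exact_mod_cast Int.one_le_abs d0
  have hem' : ∀ w, |em w β| ≤ |em w α| := fun w => by
    rw [hem]; exact le_mul_of_one_le_left (abs_nonneg _) d1
  have hmin := Nat.find_min' hex ⟨β, βI, ⟨fun h => α0 (by rw [← hβ, h, mul_zero]),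
    lt_of_le_of_lt (mul_le_mul_of_nonneg_right (hem' _) (by positivity)) b2,
    (hem' _).trans b1⟩, rfl⟩
  have hnβ : α.norm.natAbs = d.natAbs ^ 2 * β.norm.natAbs := by
    rw [← hβ, map_mul, norm_intCast, Int.natAbs_mul]; simp [Int.natAbs_pow]
  have hd1 : d.natAbs = 1 := by
    rw [← hn] at hmin
    have p0 : 0 < α.norm.natAbs := by rw [hnorm]; positivity
    have p1 : 0 < β.norm.natAbs := by
      rcases Nat.eq_zero_or_pos β.norm.natAbs with h | h
      · rw [hnβ, h] at p0; omega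
      · exact h
    have p2 : 0 < d.natAbs := Int.natAbs_pos.2 d0
    by_contra hne
    have p3 : 2 ^ 2 ≤ d.natAbs ^ 2 := Nat.pow_le_pow_left (by omega) 2
    nlinarith
  obtain ⟨z, hz, z1⟩ := (hS 1).2 (Int.natAbs_dvd.1 (by rw [hd1]; simp))
  obtain ⟨m, c, m0, mle, cm, hdv, rfl⟩ := eq_JJ J0 hz z1
  have hN1 : (0 : ℝ) < absNorm I := by exact_mod_cast Nat.pos_of_ne_zero hN
  have hm1 : (0 : ℝ) < m := by exact_mod_cast m0
  have hprod : (absNorm I : ℝ) * m ≤ |em ((b + δ) / 2) α| * |em ((b - δ) / 2) α| := by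
    rw [← abs_mul, em_norm hδ, ← Int.cast_abs, ← Int.natCast_natAbs, hnorm]
    exact_mod_cast Nat.mul_le_mul_left _ mle
  have s0 : 0 < |em ((b + δ) / 2) α| := by
    rcases (abs_nonneg (em ((b + δ) / 2) α)).eq_or_lt with h | h
    · rw [← h] at hprod; nlinarith
    · exact h
  have t2 : (0 : ℝ) < 2 ^ j := by positivity
  have low : (absNorm I : ℝ) * m * 2 ^ j < |em ((b + δ) / 2) α| := by nlinarith
  refine ⟨α, m, c, α0, m0, ?_, cm, hdv, hJ.symm, low, b1⟩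
  have := low.trans_le b1
  rw [pow_succ] at this
  by_contra hc
  have : 2 * δ * (absNorm I * 2 ^ j) ≤ m * (absNorm I * 2 ^ j) := by gcongr; linarith
  linarith

lemma unitLe {D : ℕ} (hD : b ^ 2 + 4 * a = D) {B : ℝ} (u : (QuadraticAlgebra ℤ a b)ˣ)
    (h1 : 1 < |em ((b + √D) / 2) (u : QuadraticAlgebra ℤ a b)|)
    (h2 : |em ((b + √D) / 2) (u : QuadraticAlgebra ℤ a b)| ≤ B) : UnitLe D B := by
  have hδ : √(D : ℝ) * √D = b ^ 2 + 4 * a := by
    rw [Real.mul_self_sqrt (Nat.cast_nonneg D)]; exact_mod_cast hD.symm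
  have hn := Int.isUnit_iff.1 (isUnit_iff_norm_isUnit.1 u.isUnit)
  have hp := em_norm hδ (u : QuadraticAlgebra ℤ a b)
  generalize (u : QuadraticAlgebra ℤ a b) = z at *
  obtain ⟨t, ht⟩ : ∃ t, t = 2 * z.re + b * z.im := ⟨_, rfl⟩
  have e1 : em ((b + √D) / 2) z = (t + z.im * √D) / 2 := by rw [ht, em]; push_cast; ring
  have e2 : em ((b - √D) / 2) z = (t - z.im * √D) / 2 := by rw [ht, em]; push_cast; ring
  have e3 : t ^ 2 - D * z.im ^ 2 = 4 * z.norm := by rw [ht, ← hD, norm_def]; ring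
  have e4 : |em ((b + √D) / 2) z| * |em ((b - √D) / 2) z| = 1 := by
    rw [← abs_mul, hp]; rcases hn with h | h <;> simp [h]
  have e5 : |em ((b - √D) / 2) z| < |em ((b + √D) / 2) z| := by
    nlinarith [abs_nonneg (em ((b - √D) / 2) z)]
  rw [← sq_lt_sq, e1, e2] at e5
  have e6 : 0 < (t : ℝ) * (z.im * √D) := by nlinarith
  have t0 : t ≠ 0 := by rintro rfl; simp at e6
  have i0 : z.im ≠ 0 := by intro h; simp [h] at e6
  refine ⟨t.natAbs, z.im.natAbs, Int.natAbs_pos.2 t0, Int.natAbs_pos.2 i0, ?_, ?_⟩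
  · rw [Int.natAbs_sq, Int.natAbs_sq, e3]
    rcases hn with h | h <;> simp [h]
  · refine le_trans (le_of_eq ?_) h2
    rw [e1, abs_div, abs_two, Nat.cast_natAbs, Nat.cast_natAbs, Int.cast_abs, Int.cast_abs,
      (abs_add_eq_add_abs_iff _ _).2, abs_mul, abs_of_nonneg (Real.sqrt_nonneg _)]
    rcases mul_pos_iff.1 e6 with h | h
    · exact Or.inl ⟨h.1.le, h.2.le⟩
    · exact Or.inr ⟨h.1.le, h.2.le⟩

end Pool.Agent.MP_d0fd9b_nt
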