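import Pool.Agent.MP_d0fd9b_nt.Avg
import Pool.Agent.MP_070445_nt.Main

/-! The mean value of the class number of `ℚ(√p)`. -/

set_option autoImplicit false

namespace Pool.Agent.MP_d0fd9b_nt

open Finset Pool.Agent.MP_070445_nt Real

theorem mean_bound {N : ℕ} (h1 : 5 ^ 32 ≤ N)
    (h2 : 8000000 * log (log (4 * N : ℕ)) ≤ log (4 * N : ℕ)) :
    (∑ p ∈ (Icc 1 N).filter Nat.Prime, (classNum p : ℝ)) / Nat.primeCounting N ≤
      10 ^ 9 * (√N * √(log (log N)) / log N ^ (3 / 2 : ℝ)) := by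
  classical
  have N0 : (0 : ℝ) < N := by exact_mod_cast lt_of_lt_of_le (by norm_num) h1
  obtain ⟨u, u0, hu⟩ : ∃ u : ℝ, 0 < u ∧ u ^ 32 = N :=
    ⟨(N : ℝ) ^ ((32 : ℕ) : ℝ)⁻¹, by positivity, rpow_inv_natCast_pow N0.le (by norm_num)⟩
  have u5 : 5 ≤ u := by
    refine le_of_pow_le_pow_left₀ (n := 32) (by norm_num) u0.le ?_
    rw [hu]; exact_mod_cast h1
  have u1 : 1 ≤ u := by linarith
  have up : ∀ {i j : ℕ}, i ≤ j → u ^ i ≤ u ^ j := fun h => pow_le_pow_right₀ u1 h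
  have hs : √(N : ℝ) = u ^ 16 := by
    rw [← hu, show u ^ 32 = (u ^ 16) ^ 2 by ring, sqrt_sq (by positivity)]
  set L := log (N : ℝ) with hL
  set L' := log ((4 * N : ℕ) : ℝ) with hL'
  have e3 : exp 1 ≤ 3 := exp_one_lt_d9.le.trans (by norm_num)
  have lu : 1 ≤ log u := (le_log_iff_exp_le u0).2 (by linarith)
  have lu' : log u ≤ u := (log_le_sub_one_of_pos u0).trans (by linarith)
  have eL : L = 32 * log u := by rw [hL, ← hu, log_pow]; norm_num
  have L32 : 32 ≤ L := by linarith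
  have eL' : L' = log 4 + L := by rw [hL', Nat.cast_mul, log_mul (by norm_num) N0.ne']; rfl
  have l4 : log 4 ≤ 3 := (log_le_sub_one_of_pos (by norm_num)).trans (by norm_num)
  have l4' : 0 ≤ log 4 := log_nonneg (by norm_num)
  have LL : L ≤ L' := by linarith
  have LL' : L' ≤ 2 * L := by linarith
  have lL : 1 ≤ log L := (le_log_iff_exp_le (by linarith)).2 (by linarith)
  have lL' : log L ≤ log L' := log_le_log (by linarith) LL
  have lL'' : log L' ≤ 2 * log L := by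
    calc log L' ≤ log (L ^ 2) := log_le_log (by linarith) (LL'.trans (by rw [_root_.sq]; gcongr; linarith))
      _ = _ := by rw [log_pow]; norm_num
  obtain ⟨s, s0, hs2⟩ : ∃ s : ℝ, 0 < s ∧ s ^ 2 = L := ⟨√L, sqrt_pos.2 (by linarith),
    sq_sqrt (by linarith)⟩
  have s1 : 1 ≤ s := (one_le_sq_iff₀ s0.le).1 (by linarith)
  have hs3 : L ^ (3 / 2 : ℝ) = s ^ 3 := by
    rw [← hs2, ← rpow_natCast, ← rpow_mul s0.le, ← rpow_natCast]; norm_num
  obtain ⟨w, w0, hw⟩ : ∃ w : ℝ, 0 < w ∧ w ^ 2 = log L := ⟨√(log L), sqrt_pos.2 (by linarith),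
    sq_sqrt (by linarith)⟩
  have w1 : 1 ≤ w := (one_le_sq_iff₀ w0.le).1 (by linarith)
  have hw' : √(log L) = w := by rw [← hw, sqrt_sq w0.le]
  obtain ⟨α, α0, hα⟩ : ∃ α : ℝ, 0 < α ∧ α ^ 2 = L' / (2000000 * log L') :=
    ⟨_, sqrt_pos.2 (div_pos (by linarith) (by linarith)),
      sq_sqrt (div_pos (by linarith) (by linarith)).le⟩
  have hα' : α ^ 2 * (2000000 * log L') = L' := by
    rw [hα, div_mul_cancel₀ _ (by linarith : (0 : ℝ) < _).ne']
  have α2 : 2 ≤ α := by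
    refine le_of_pow_le_pow_left₀ (n := 2) (by norm_num) α0.le ?_
    rw [hα, le_div_iff₀ (by linarith)]; linarith
  have αs : s ≤ 2000 * w * α := by
    refine le_of_pow_le_pow_left₀ (n := 2) (by norm_num) (by positivity) ?_
    rw [mul_pow, mul_pow, hw, hs2]
    linarith [mul_le_mul_of_nonneg_left lL'' (sq_nonneg α)]
  set Y := ⌈4 * √(N : ℝ)⌉₊ with hY
  have Y5 : (Y : ℝ) ≤ 5 * u ^ 16 := by
    have := Nat.ceil_lt_add_one (by positivity : 0 ≤ 4 * √(N : ℝ))
    have := up (Nat.zero_le 16)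
    linarith
  have YN : (Y : ℝ) ≤ N := by
    calc (Y : ℝ) ≤ u * u ^ 16 := Y5.trans (by gcongr)
      _ = u ^ 17 := by ring
      _ ≤ _ := hu ▸ up (by norm_num)
  have Y1 : (0 : ℝ) < Y := lt_of_lt_of_le (by positivity) (Nat.le_ceil (4 * √(N : ℝ)))
  set z := ⌊u ^ 2⌋₊ with hz
  have z1 : (z : ℝ) ≤ u ^ 2 := Nat.floor_le (by positivity)
  have z2 : u ≤ z := by
    have := Nat.lt_floor_add_one (u ^ 2)
    linarith [mul_le_mul_of_nonneg_left u5 u0.le]
  have αL : 2 * L' ≤ α * L' := by gcongr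
  set M := ⌊α * L' / 2⌋₊ with hM
  have M1 : (M : ℝ) ≤ α * L' / 2 := Nat.floor_le (by positivity)
  have M2 : α * L' / 4 ≤ M := by
    have := Nat.lt_floor_add_one (α * L' / 2)
    linarith
  have N4 : (0 : ℝ) < (4 * N : ℕ) := by push_cast; linarith
  have M0 : (0 : ℝ) < M := by linarith
  have key := sum_bound (N := N) (Y := Y) (z := z) (M := M) (B := ((4 * N : ℕ) : ℝ) ^ α)
    (Nat.le_ceil _) (by exact_mod_cast YN) (by exact_mod_cast (by linarith : (2 : ℝ) ≤ z))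
    (by exact_mod_cast M0) (by
      rw [rpow_def_of_pos N4]
      calc (2 : ℝ) ^ M * Y ≤ exp 1 ^ M * (4 * N : ℕ) := by
            gcongr
            · linarith [add_one_le_exp 1]
            · exact (Nat.cast_le.1 YN).trans (by omega)
        _ = exp (M + L') := by rw [exp_add, ← exp_nat_mul, mul_one, hL', exp_log N4]
        _ ≤ _ := exp_le_exp.2 (by linarith))
  have cnt := count_bound (4 * N) α (by omega) (by linarith)
  have e1 : ((4 * N : ℕ) : ℝ) ^ (1 - 1 / 250000 / α ^ 2) = 4 * N / L' ^ 8 := by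
    have : L' * (1 / 250000 / α ^ 2) = (8 : ℕ) * log L' := by
      rw [← mul_div_assoc, div_eq_iff (by positivity)]; push_cast; linarith
    rw [rpow_sub N4, rpow_one, rpow_def_of_pos N4, ← hL', this, exp_nat_mul,
      exp_log (by linarith)]
    push_cast; rfl
  rw [e1, ← hL'] at cnt
  clear_value M z Y L L'
  generalize (((Icc 1 (4 * N)).filter fun D => UnitLe D (((4 * N : ℕ) : ℝ) ^ α)).card : ℝ) = E
    at key cnt
  have cnt' : E ≤ 6080 * u ^ 32 / s ^ 8 := by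
    calc E ≤ _ := cnt
      _ = 6080 * N / L' ^ 4 := by field_simp; norm_num
      _ ≤ 6080 * N / L ^ 4 := by gcongr
      _ = _ := by rw [← hu, ← hs2]; ring
  have su : s ^ 2 ≤ 32 * u := by linarith
  have lY : log Y ≤ s ^ 2 := by rw [hs2, hL]; exact log_le_log Y1 YN
  have lY0 := log_natCast_nonneg Y
  have T0 : 0 < u ^ 48 / s ^ 5 := by positivity
  have t1 : 50 * (Y : ℝ) ^ 2 ≤ 10 ^ 8 * (u ^ 48 / s ^ 5) := by
    rw [← mul_div_assoc, le_div_iff₀ (by positivity)]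
    calc _ ≤ 50 * (5 * u ^ 16) ^ 2 * (s ^ 2) ^ 3 := by
          gcongr
          rw [← pow_mul]; exact pow_le_pow_right₀ s1 (by norm_num)
      _ ≤ 50 * (5 * u ^ 16) ^ 2 * (32 * u) ^ 3 := by gcongr
      _ = 40960000 * u ^ 35 := by ring
      _ ≤ _ := by gcongr <;> norm_num
  have t2 : 2 * E * (4 * (Y * (1 + log Y))) ≤ 10 ^ 6 * (u ^ 48 / s ^ 5) := by
    calc _ ≤ 2 * (6080 * u ^ 32 / s ^ 8) * (4 * (5 * u ^ 16 * (s ^ 2 + s ^ 2))) := by
          gcongr; linarith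
      _ = 486400 * (u ^ 48 / s ^ 6) := by field_simp; norm_num
      _ ≤ _ := by gcongr <;> norm_num
  have t3 : 12 * Y * (4 * N / log z + Y * (z ^ 4 + z)) / M ≤
      (10 : ℝ) ^ 9 / 4 * w * (u ^ 48 / s ^ 5) - 10 ^ 8 * (u ^ 48 / s ^ 5) * w -
        10 ^ 6 * (u ^ 48 / s ^ 5) * w := by
    have a1 : 4 * N / log z ≤ 128 * u ^ 32 / s ^ 2 := by
      calc _ ≤ 4 * N / log u := by gcongr
        _ = _ := by rw [hs2, eL, hu]; field_simp; norm_num
    have a2 : (Y : ℝ) * (z ^ 4 + z) ≤ 64 * u ^ 32 / s ^ 2 := by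
      rw [le_div_iff₀ (by positivity)]
      calc _ ≤ u * u ^ 16 * ((u ^ 2) ^ 4 + u ^ 8) * (32 * u) := by
            gcongr
            · exact Y5.trans (by gcongr)
            · exact z1.trans (up (by norm_num))
        _ = 64 * u ^ 26 := by ring
        _ ≤ _ := by gcongr; norm_num
    have a3 : s ^ 3 / (8000 * w) ≤ M := by
      refine le_trans ?_ M2
      rw [div_le_div_iff₀ (by positivity) (by norm_num)]
      calc s ^ 3 * 4 = s * L * 4 := by rw [← hs2]; ring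
        _ ≤ 2000 * w * α * L' * 4 := by gcongr
        _ = _ := by ring
    calc _ ≤ 12 * (5 * u ^ 16) * (128 * u ^ 32 / s ^ 2 + 64 * u ^ 32 / s ^ 2) /
          (s ^ 3 / (8000 * w)) := by gcongr
      _ = 92160000 * (w * (u ^ 48 / s ^ 5)) := by field_simp; norm_num
      _ ≤ _ := by linarith [mul_pos w0 T0]
  have tot : ∑ p ∈ (Icc 1 N).filter Nat.Prime, (classNum p : ℝ) ≤
      10 ^ 9 / 4 * w * (u ^ 48 / s ^ 5) := by
    linarith [mul_le_mul_of_nonneg_left w1 T0.le]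
  have pi0 : u ^ 32 / (4 * s ^ 2) ≤ Nat.primeCounting N := by
    refine le_trans ?_ (Chebyshev.pi_ge N)
    rw [← hL, hs2, ← div_div, hu]
    gcongr
    have b1 : log ((N : ℝ) + 1) ≤ L' := by
      rw [hL']
      exact log_le_log (by positivity) (by exact_mod_cast (by omega : N + 1 ≤ 4 * N))
    have b2 : 256 * u ≤ N := by
      calc 256 * u ≤ 5 ^ 4 * u := by gcongr; norm_num
        _ ≤ u ^ 4 * u := by gcongr
        _ = u ^ 5 := by ring
        _ ≤ _ := hu ▸ up (by norm_num)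
    linarith [mul_le_mul_of_nonneg_left log_two_gt_d9.le N0.le]
  rw [hs, hw', hs3]
  calc _ ≤ 10 ^ 9 / 4 * w * (u ^ 48 / s ^ 5) / (u ^ 32 / (4 * s ^ 2)) := by gcongr
    _ = _ := by field_simp

theorem eventually_loglog :
    ∀ᶠ N : ℕ in Filter.atTop, 8000000 * log (log (4 * N : ℕ)) ≤ log (4 * N : ℕ) := by
  have h1 : Filter.Tendsto (fun N : ℕ => log ((4 * N : ℕ) : ℝ)) Filter.atTop Filter.atTop :=
    tendsto_log_atTop.comp (tendsto_natCast_atTop_atTop.comp
      (Filter.tendsto_id.const_mul_atTop' (by norm_num)))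
  have h2 := isLittleO_log_id_atTop.bound (by norm_num : (0 : ℝ) < 1 / 8000000)
  filter_upwards [h1.eventually h2] with N h
  rw [id, norm_of_nonneg (log_natCast_nonneg _)] at h
  linarith [le_norm_self (log (log ((4 * N : ℕ) : ℝ)))]

end Pool.Agent.MP_d0fd9b_nt
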